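import Pool.Agent.H25.MM.H261R2.CM.Defs

set_option autoImplicit false

namespace Pool.Agent.H261R2.CM

open Polynomial Filter MeasureTheory Matrix Topology

noncomputable section

/-- The hyperfilter. -/
abbrev UU : Filter ℕ := (hyperfilter ℕ : Ultrafilter ℕ)

theorem rep_eq (γ : Gam) : ((rep γ : ℕ → ℤ) : Gam) = γ := Quotient.out_eq γ

theorem zc_toC (A : ℤ[X]) (N : ℤ) : zc (toC A) N = ((zc A N : ℤ) : ℂ) := by
  unfold zc toC
  split_ifs <;> simp

theorem zc_sum_le (P : ℂ[X]) (hP : l2le P) (T : Finset ℤ) : ∑ N ∈ T, ‖zc P N‖ ^ 2 ≤ 1 := by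
  classical
  refine le_trans ?_ hP
  rw [← Finset.sum_filter_of_ne (p := fun N => zc P N ≠ 0)
    (fun N _ h => fun h0 => h (by simp [h0]))]
  have hmem : ∀ N ∈ T.filter (fun N => zc P N ≠ 0), 0 ≤ N ∧ N.toNat ∈ P.support := by
    intro N hN
    rw [Finset.mem_filter] at hN
    have h := hN.2
    unfold zc at h
    split_ifs at h with h0
    · exact ⟨h0, Polynomial.mem_support_iff.mpr h⟩
    · exact absurd rfl h
  have heq : ∑ N ∈ T.filter (fun N => zc P N ≠ 0), ‖zc P N‖ ^ 2 =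
      ∑ j ∈ (T.filter (fun N => zc P N ≠ 0)).image Int.toNat, ‖P.coeff j‖ ^ 2 := by
    rw [Finset.sum_image]
    · refine Finset.sum_congr rfl fun N hN => ?_
      unfold zc
      rw [if_pos (hmem N hN).1]
    · intro a ha b hb hab
      have h1 := (hmem a ha).1
      have h2 := (hmem b hb).1

      omega
  rw [heq]
  refine Finset.sum_le_sum_of_subset_of_nonneg ?_ fun _ _ _ => by positivity
  intro j hj
  rw [Finset.mem_image] at hj
  obtain ⟨N, hN, rfl⟩ := hj
  exact (hmem N hN).2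

theorem exists_lim (f : ℕ → ℂ) (hf : ∀ n, ‖f n‖ ≤ 1) : ∃ z, Tendsto f UU (𝓝 z) := by
  have hc : IsCompact (Metric.closedBall (0 : ℂ) 1) := isCompact_closedBall 0 1
  obtain ⟨z, _, hz⟩ := hc.ultrafilter_le_nhds ((hyperfilter ℕ).map f) (by
    rw [Ultrafilter.coe_map, le_principal_iff, mem_map]
    exact univ_mem' fun n => by simpa using hf n)
  exact ⟨z, hz⟩

/-- Coefficient sequences of `p_n A_n` and `p_n B_n`. -/
def uu (A B : ℕ → ℤ[X]) (p : ℕ → ℂ[X]) (b : Bool) (n : ℕ) (N : ℤ) : ℂ :=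
  zc (p n * toC (if b then A n else B n)) N

section

variable (A B : ℕ → ℤ[X]) (p : ℕ → ℂ[X])

theorem uu_sum_le (hpA : ∀ n, l2le (p n * toC (A n)))
    (hpB : ∀ n, l2le (p n * toC (B n))) (b : Bool) (n : ℕ) (T : Finset ℤ) :
    ∑ N ∈ T, ‖uu A B p b n N‖ ^ 2 ≤ 1 := by
  unfold uu
  cases b
  · simpa using zc_sum_le _ (hpB n) T
  · simpa using zc_sum_le _ (hpA n) T

theorem uu_le (hpA : ∀ n, l2le (p n * toC (A n)))
    (hpB : ∀ n, l2le (p n * toC (B n))) (b : Bool) (n : ℕ) (N : ℤ) : ‖uu A B p b n N‖ ≤ 1 := by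
  have := uu_sum_le A B p hpA hpB b n {N}
  rw [Finset.sum_singleton] at this
  nlinarith [norm_nonneg (uu A B p b n N)]

open Classical in
/-- The limit functions on the ultraproduct. -/
def GG (b : Bool) (γ : Gam) : ℂ :=
  if h : ∃ z, Tendsto (fun n => uu A B p b n (rep γ n)) UU (𝓝 z) then h.choose else 0

theorem GG_spec (hpA : ∀ n, l2le (p n * toC (A n)))
    (hpB : ∀ n, l2le (p n * toC (B n))) (b : Bool) (γ : Gam) :
    Tendsto (fun n => uu A B p b n (rep γ n)) UU (𝓝 (GG A B p b γ)) := by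
  have h : ∃ z, Tendsto (fun n => uu A B p b n (rep γ n)) UU (𝓝 z) :=
    exists_lim _ fun n => uu_le A B p hpA hpB b n _
  unfold GG
  rw [dif_pos h]
  exact h.choose_spec

theorem GG_tendsto (hpA : ∀ n, l2le (p n * toC (A n)))
    (hpB : ∀ n, l2le (p n * toC (B n))) (b : Bool) (γ : Gam) (s : ℕ → ℤ) (hs : (s : Gam) = γ) :
    Tendsto (fun n => uu A B p b n (s n)) UU (𝓝 (GG A B p b γ)) := by
  refine (GG_spec A B p hpA hpB b γ).congr' ?_
  have h1 : rep γ =ᶠ[UU] s := by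
    rw [← Germ.coe_eq, hs]
    exact rep_eq γ
  filter_upwards [h1] with n hn
  rw [hn]

theorem rep_inj (T : Finset Gam) : ∀ᶠ n in UU, Set.InjOn (fun γ => rep γ n) (T : Set Gam) := by
  have h : ∀ γ ∈ T, ∀ δ ∈ T, ∀ᶠ n in UU, rep γ n = rep δ n → γ = δ := by
    intro γ _ δ _
    by_cases hγδ : γ = δ
    · exact Eventually.of_forall fun n _ => hγδ
    · have hne : ¬ ∀ᶠ n in UU, rep γ n = rep δ n := by
        intro hcon
        apply hγδ
        rw [← rep_eq γ, ← rep_eq δ]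
        exact Germ.coe_eq.mpr hcon
      have := (Ultrafilter.eventually_not (f := hyperfilter ℕ)).mpr hne
      filter_upwards [this] with n hn h
      exact absurd h hn
  have h2 : ∀ᶠ n in UU, ∀ γ ∈ T, ∀ δ ∈ T, rep γ n = rep δ n → γ = δ := by
    rw [Filter.eventually_all_finset]
    intro γ hγ
    rw [Filter.eventually_all_finset]
    exact fun δ hδ => h γ hγ δ hδ
  filter_upwards [h2] with n hn
  intro γ hγ δ hδ hh
  exact hn γ hγ δ hδ hh

theorem GG_sum_le (hpA : ∀ n, l2le (p n * toC (A n)))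
    (hpB : ∀ n, l2le (p n * toC (B n))) (b : Bool) (T : Finset Gam) :
    ∑ γ ∈ T, ‖GG A B p b γ‖ ^ 2 ≤ 1 := by
  classical
  have h1 : Tendsto (fun n => ∑ γ ∈ T, ‖uu A B p b n (rep γ n)‖ ^ 2) UU
      (𝓝 (∑ γ ∈ T, ‖GG A B p b γ‖ ^ 2)) := by
    refine tendsto_finsetSum _ fun γ _ => ?_
    exact ((GG_spec A B p hpA hpB b γ).norm).pow 2
  refine le_of_tendsto h1 ?_
  filter_upwards [rep_inj T] with n hn
  have := uu_sum_le A B p hpA hpB b n (T.image fun γ => rep γ n)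
  rwa [Finset.sum_image hn] at this

end

end

end Pool.Agent.H261R2.CM
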