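import Pool.Agent.H25.MM.H261R2.CM.A
import Pool.Agent.H25.MM.H261R2.CM.C2

/-! # Task C4: a bounded integer relation from linear dependence (helper109) -/

set_option autoImplicit false

namespace Pool.Agent.H261R2.CM

open Polynomial Filter MeasureTheory Matrix Topology
open scoped ComplexOrder

noncomputable section

namespace C4

/-- an integer vector in the left kernel, bounded by the Gram determinant -/
theorem exists_kernel {ι : Type*} [Fintype ι] [DecidableEq ι] (r : ℕ) (G : Matrix ι (Fin r) ℤ)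
    (hq : 1 ≤ (Gᵀ * G).det) (hr : r < Fintype.card ι) :
    ∃ x : ι → ℤ, x ≠ 0 ∧ (∀ b, |x b| ≤ (Gᵀ * G).det) ∧ x ᵥ* G = 0 := by
  set Q := Gᵀ * G with hQ
  set q := Q.det with hqdef
  set P : Matrix ι ι ℤ := q • (1 : Matrix ι ι ℤ) - G * Q.adjugate * Gᵀ with hP
  have hQt : Qᵀ = Q := by rw [hQ, Matrix.transpose_mul, Matrix.transpose_transpose]
  have hPt : Pᵀ = P := by
    rw [hP, Matrix.transpose_sub, Matrix.transpose_smul, Matrix.transpose_one,
      Matrix.transpose_mul, Matrix.transpose_mul, Matrix.transpose_transpose,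
      Matrix.adjugate_transpose, hQt, Matrix.mul_assoc]
  have hPG : P * G = 0 := by
    rw [hP, Matrix.sub_mul, Matrix.smul_mul, Matrix.one_mul, Matrix.mul_assoc, ← hQ, Matrix.mul_assoc,
      Matrix.adjugate_mul, Matrix.mul_smul, Matrix.mul_one, sub_self]
  have hPP : P * P = q • P := by
    conv_lhs => rw [hP]
    have h1 : P * P = P * (q • (1 : Matrix ι ι ℤ)) - P * (G * Q.adjugate * Gᵀ) := by
      rw [← Matrix.mul_sub, ← hP]
    rw [← hP, h1, Matrix.mul_assoc, ← Matrix.mul_assoc P G, hPG, Matrix.zero_mul, sub_zero,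
      Matrix.mul_smul, Matrix.mul_one]
  have htr : P.trace = q * ((Fintype.card ι : ℤ) - r) := by
    rw [hP, Matrix.trace_sub, Matrix.trace_smul, Matrix.trace_one, Matrix.mul_assoc,
      Matrix.trace_mul_comm, Matrix.mul_assoc, ← hQ, Matrix.adjugate_mul, Matrix.trace_smul,
      Matrix.trace_one, Fintype.card_fin]
    simp only [smul_eq_mul]
    ring
  have htr0 : P.trace ≠ 0 := by
    rw [htr]
    apply mul_ne_zero (by omega)
    have : (r : ℤ) < Fintype.card ι := by exact_mod_cast hr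
    omega
  obtain ⟨b₀, hb₀⟩ : ∃ b₀, P b₀ b₀ ≠ 0 := by
    by_contra hcon
    push Not at hcon
    apply htr0
    rw [Matrix.trace]
    exact Finset.sum_eq_zero fun i _ => hcon i
  have hsq : ∑ a, P b₀ a ^ 2 = q * P b₀ b₀ := by
    have h1 := congrFun (congrFun hPP b₀) b₀
    rw [Matrix.mul_apply, Matrix.smul_apply, smul_eq_mul] at h1
    rw [← h1]
    apply Finset.sum_congr rfl
    intro a _
    have h2 : P a b₀ = P b₀ a := by
      have := congrFun (congrFun hPt b₀) a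
      rw [Matrix.transpose_apply] at this
      exact this
    rw [h2, sq]
  have hle : ∀ a, P b₀ a ^ 2 ≤ q * P b₀ b₀ := by
    intro a
    rw [← hsq]
    exact Finset.single_le_sum (f := fun a => P b₀ a ^ 2) (fun i _ => sq_nonneg _) (Finset.mem_univ a)
  have hy : P b₀ b₀ ≤ q := by
    by_contra hlt
    push Not at hlt
    have h1 := hle b₀
    nlinarith
  refine ⟨P b₀, ?_, ?_, ?_⟩
  · intro h
    apply hb₀
    rw [h]
    rfl
  · intro b
    apply abs_le_of_sq_le_sq _ (by omega)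
    have h1 := hle b
    nlinarith
  · have h1 := congrFun hPG b₀
    rw [← Matrix.mul_apply_eq_vecMul]
    exact h1

/-- a bounded integer relation for an abstract dependent family -/
theorem level_relation {ι : Type*} [Fintype ι] [DecidableEq ι]
    (E : ι → ℤ → ℤ) (m : ℤ) (hm : ∀ i, ∀ γ < m, E i γ = 0)
    (p : ℂ[X]) (c : ℝ) (hc : 0 < c) (hp : c ≤ ‖p.coeff 0‖)
    (hW : ∀ b, ∀ (n : ℕ) (N : Fin n → ℤ), Function.Injective N →
      ∑ j, ‖conv p (fun γ => ((E b γ : ℤ) : ℂ)) (N j)‖ ^ 2 ≤ 1)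
    (hdep : ¬ LinearIndependent ℂ (fun (b : ι) (γ : ℤ) => ((E b γ : ℤ) : ℂ))) :
    ∃ x : ι → ℤ, x ≠ 0 ∧
      (∀ b, ((|x b| : ℤ) : ℝ) ≤ (1 + (Fintype.card ι : ℝ) / c ^ 2) ^ (Fintype.card ι)) ∧
      ∀ γ, ∑ b, x b * E b γ = 0 := by
  classical
  obtain ⟨r, hr⟩ : ∃ r : ℕ, Module.finrank ℂ
      (Submodule.span ℂ (Set.range fun i => fun γ => ((E i γ : ℤ) : ℂ))) = r := ⟨_, rfl⟩
  have hrι : r < Fintype.card ι := by
    have h1 := finrank_range_le_card (R := ℂ) (fun (b : ι) (γ : ℤ) => ((E b γ : ℤ) : ℂ))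
    rw [Set.finrank, hr] at h1
    rcases lt_or_eq_of_le h1 with h | h
    · exact h
    · exfalso
      apply hdep
      rw [linearIndependent_iff_card_eq_finrank_span, Set.finrank, hr, h]
  have key := level_gram E m hm r hr p
  have hEV : ∀ b, (fun γ => ((E b γ : ℤ) : ℂ)) ∈
    Submodule.span ℂ (Set.range fun i => fun γ => ((E i γ : ℤ) : ℂ)) := fun b => Submodule.subset_span ⟨b, rfl⟩
  generalize (Submodule.span ℂ (Set.range fun i => fun γ => ((E i γ : ℤ) : ℂ))) = V at key hEV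
  obtain ⟨N, hN, -, hpiv, ⟨T, hT, hconv⟩, hlow⟩ := key
  set G : Matrix ι (Fin r) ℤ := Matrix.of fun b j => E b (N j) with hG
  set W : Matrix ι (Fin r) ℂ := Matrix.of fun b j => conv p (fun γ => ((E b γ : ℤ) : ℂ)) (N j) with hWdef
  have hWG : W = (G.map (Int.castRingHom ℂ)) * T := by
    ext b j
    rw [Matrix.mul_apply]
    simp only [hWdef, Matrix.of_apply]
    rw [hconv _ (hEV b) j]
    rfl
  set g := (Gᵀ * G).det with hg
  have hGH : (G.map (Int.castRingHom ℂ))ᴴ * (G.map (Int.castRingHom ℂ)) =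
      (Gᵀ * G).map (Int.castRingHom ℂ) := by
    have h1 : (G.map (Int.castRingHom ℂ))ᴴ = Gᵀ.map (Int.castRingHom ℂ) := by
      ext i j
      simp [Matrix.conjTranspose_apply]
    rw [h1, Matrix.map_mul]
  have hdet : (Wᴴ * W).det = ((‖p.coeff 0‖ ^ (2 * r) * (g : ℝ) : ℝ) : ℂ) := by
    have h1 : Wᴴ * W = Tᴴ * ((Gᵀ * G).map (Int.castRingHom ℂ)) * T := by
      rw [hWG, Matrix.conjTranspose_mul, ← hGH]
      simp only [Matrix.mul_assoc]
    have h2 : ((Gᵀ * G).map (Int.castRingHom ℂ)).det = ((g : ℤ) : ℂ) := by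
      have := (Int.castRingHom ℂ).map_det (Gᵀ * G)
      rw [hg]
      exact this.symm
    rw [h1, Matrix.det_mul, Matrix.det_mul, h2, Matrix.det_conjTranspose, hT]
    have h3 : star (p.coeff 0 ^ r) * p.coeff 0 ^ r = ((‖p.coeff 0‖ ^ (2 * r) : ℝ) : ℂ) := by
      have := Complex.conj_mul' (p.coeff 0 ^ r)
      rw [norm_pow] at this
      rw [← starRingEnd_apply, this]
      push_cast
      ring
    calc star (p.coeff 0 ^ r) * ((g : ℤ) : ℂ) * p.coeff 0 ^ r
        = (star (p.coeff 0 ^ r) * p.coeff 0 ^ r) * ((g : ℤ) : ℂ) := by ring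
      _ = _ := by rw [h3]; push_cast; ring
  have hre : (Wᴴ * W).det.re = ‖p.coeff 0‖ ^ (2 * r) * (g : ℝ) := by
    rw [hdet, Complex.ofReal_re]
  have hp0 : 0 < ‖p.coeff 0‖ := lt_of_lt_of_le hc hp
  have hlow' : ‖p.coeff 0‖ ^ (2 * r) ≤ (Wᴴ * W).det.re := by
    have := hlow r le_rfl
    simpa using this
  have hg1 : (1 : ℝ) ≤ (g : ℝ) := by
    rw [hre] at hlow'
    have h1 : 0 < ‖p.coeff 0‖ ^ (2 * r) := by positivity
    exact le_of_mul_le_mul_left (by linarith) h1
  have hg1' : 1 ≤ g := by exact_mod_cast hg1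
  have hcard0 : (0 : ℝ) ≤ (Fintype.card ι : ℝ) / c ^ 2 := by positivity
  have hgle : (g : ℝ) ≤ (1 + (Fintype.card ι : ℝ) / c ^ 2) ^ (Fintype.card ι) := by
    rcases Nat.eq_zero_or_pos r with h0 | h0
    · subst h0
      have h1 : g = 1 := by
        rw [hg]
        exact Matrix.det_isEmpty
      rw [h1]
      simp only [Int.cast_one]
      exact one_le_pow₀ (by linarith)
    · have hne : Nonempty (Fin r) := ⟨⟨0, h0⟩⟩
      have hA := det_gram_scaled W (fun _ => 1) (fun _ => one_pos)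
      simp only [one_pow, Finset.prod_const_one, one_mul, Fintype.card_fin] at hA
      have hsum : ∑ j, ∑ i, ‖W i j‖ ^ 2 ≤ (Fintype.card ι : ℝ) := by
        rw [Finset.sum_comm]
        calc ∑ i, ∑ j, ‖W i j‖ ^ 2 ≤ ∑ _i : ι, (1 : ℝ) :=
              Finset.sum_le_sum fun i _ => hW i r N hN.injective
          _ = (Fintype.card ι : ℝ) := by simp
      have hr'0 : (1 : ℝ) ≤ r := by exact_mod_cast h0
      have h5 : ‖p.coeff 0‖ ^ (2 * r) * (g : ℝ) ≤ ((Fintype.card ι : ℝ) / r) ^ r := by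
        rw [← hre]
        refine hA.trans ?_
        gcongr
      have h6 : (c ^ 2) ^ r * (g : ℝ) ≤ (Fintype.card ι : ℝ) ^ r := by
        calc (c ^ 2) ^ r * (g : ℝ) ≤ ‖p.coeff 0‖ ^ (2 * r) * (g : ℝ) := by
              rw [pow_mul]
              gcongr
          _ ≤ ((Fintype.card ι : ℝ) / r) ^ r := h5
          _ ≤ (Fintype.card ι : ℝ) ^ r := by
              gcongr
              exact div_le_self (by positivity) hr'0
      have h7 : (g : ℝ) ≤ ((Fintype.card ι : ℝ) / c ^ 2) ^ r := by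
        rw [div_pow, le_div_iff₀ (by positivity)]
        linarith
      calc (g : ℝ) ≤ ((Fintype.card ι : ℝ) / c ^ 2) ^ r := h7
        _ ≤ (1 + (Fintype.card ι : ℝ) / c ^ 2) ^ r := by
            gcongr
            linarith
        _ ≤ (1 + (Fintype.card ι : ℝ) / c ^ 2) ^ (Fintype.card ι) :=
            pow_le_pow_right₀ (by linarith) hrι.le
  obtain ⟨x, hx0, hxb, hxG⟩ := exists_kernel r G hg1' hrι
  refine ⟨x, hx0, ?_, ?_⟩
  · intro b
    calc ((|x b| : ℤ) : ℝ) ≤ (g : ℝ) := by exact_mod_cast hxb b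
      _ ≤ _ := hgle
  · set v : ℤ → ℂ := ∑ b, (x b : ℂ) • (fun γ => ((E b γ : ℤ) : ℂ)) with hv
    have hvval : ∀ γ, v γ = ((∑ b, x b * E b γ : ℤ) : ℂ) := by
      intro γ
      rw [hv, Finset.sum_apply]
      push_cast
      rfl
    have h1 : v ∈ V := Submodule.sum_mem _ fun b _ => Submodule.smul_mem _ _ (hEV b)
    have h2 : v = 0 := by
      apply hpiv v h1
      intro j
      rw [hvval]
      have := congrFun hxG j
      rw [Matrix.vecMul, dotProduct] at this
      simp only [hG, Matrix.of_apply, Pi.zero_apply] at this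
      rw [this]
      simp
    intro γ
    have h3 := hvval γ
    rw [h2] at h3
    simp only [Pi.zero_apply] at h3
    exact_mod_cast h3.symm

end C4

open C4

theorem relation_of_dependent (A B : ℕ → ℤ[X]) (p : ℕ → ℂ[X]) (c : ℝ) (hc : 0 < c)
    (hp : ∀ n, c ≤ ‖(p n).coeff 0‖) (hpA : ∀ n, l2le (p n * toC (A n)))
    (hpB : ∀ n, l2le (p n * toC (B n))) (F : Finset Gam)
    (hdep : ¬ ∀ᶠ n in UU, LinearIndependent ℂ
      (fun (β : F × Bool) (γ : ℤ) => ((Ev A B n ((β.1 : Gam), β.2) γ : ℤ) : ℂ))) :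
    ∃ (F' : Finset Gam) (x : Gam → Bool → ℤ), (∃ γ ∈ F', ∃ b, x γ b ≠ 0) ∧
      ∀ᶠ n in UU, ∀ N : ℤ,
        ∑ γ ∈ F', (x γ true * zc (A n) (N - rep γ n) + x γ false * zc (B n) (N - rep γ n)) = 0 := by
  classical
  have h1 : ∀ᶠ n in UU, ¬ LinearIndependent ℂ
      (fun (β : F × Bool) (γ : ℤ) => ((Ev A B n ((β.1 : Gam), β.2) γ : ℤ) : ℂ)) :=
    (Ultrafilter.eventually_not (f := hyperfilter ℕ)).mpr hdep
  set K : ℝ := (1 + (Fintype.card (F × Bool) : ℝ) / c ^ 2) ^ (Fintype.card (F × Bool)) with hK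
  let S : Set (F × Bool → ℤ) := {x | ∀ b, x b ∈ Set.Icc (-⌊K⌋) ⌊K⌋}
  have hS : S.Finite := Set.Finite.pi' fun _ => Set.finite_Icc _ _
  have h3 : ∀ᶠ n in UU, ∃ x ∈ S, x ≠ 0 ∧ ∀ γ : ℤ, ∑ β : F × Bool, x β * Ev A B n ((β.1 : Gam), β.2) γ = 0 := by
    filter_upwards [h1] with n hn
    obtain ⟨m, hm⟩ := (Set.finite_range (fun β : F × Bool => rep (β.1 : Gam) n)).bddBelow
    obtain ⟨x, hx0, hxb, hx⟩ := level_relation
      (fun (β : F × Bool) (γ : ℤ) => Ev A B n ((β.1 : Gam), β.2) γ) m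
      (by
        intro β γ hγ
        have h4 : m ≤ rep (β.1 : Gam) n := hm ⟨β, rfl⟩
        simp only [Ev]
        rw [zc, if_neg (by omega)])
      (p n) c hc (hp n)
      (by
        intro β k N hN
        have h5 : ∀ j, conv (p n) (fun γ => ((Ev A B n ((β.1 : Gam), β.2) γ : ℤ) : ℂ)) (N j) =
            uu A B p β.2 n (N j - rep (β.1 : Gam) n) := by
          intro j
          rw [uu, ← conv_zc]
          congr 1
          funext γ
          rw [zc_toC]
          rfl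
        simp only [h5]
        have h6 := uu_sum_le A B p hpA hpB β.2 n
          (Finset.univ.image fun j => N j - rep (β.1 : Gam) n)
        rwa [Finset.sum_image (fun a _ b _ h => hN (by simpa using h))] at h6)
      hn
    refine ⟨x, ?_, hx0, hx⟩
    intro b
    have h7 : |x b| ≤ ⌊K⌋ := Int.le_floor.mpr (hxb b)
    exact abs_le.mp h7
  obtain ⟨x₀, -, hx₀⟩ := (Ultrafilter.eventually_exists_mem_iff (f := hyperfilter ℕ) hS).mp h3
  have hne : x₀ ≠ 0 := by
    obtain ⟨n, hn⟩ := hx₀.exists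
    exact hn.1
  refine ⟨F, fun γ b => if h : γ ∈ F then x₀ (⟨γ, h⟩, b) else 0, ?_, ?_⟩
  · obtain ⟨β, hβ⟩ := Function.ne_iff.mp hne
    refine ⟨β.1, β.1.2, β.2, ?_⟩
    simp only [Pi.zero_apply] at hβ
    beta_reduce
    rw [dif_pos β.1.2]
    exact hβ
  · filter_upwards [hx₀] with n hn
    intro N
    have h8 := hn.2 N
    rw [Fintype.sum_prod_type] at h8
    rw [← Finset.sum_coe_sort F]
    rw [← h8]
    apply Finset.sum_congr rfl
    intro γ _
    rw [Fintype.sum_bool]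
    simp only [Finset.coe_mem, dif_pos, Ev, if_true, Bool.false_eq_true, if_false]

end

end Pool.Agent.H261R2.CM
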