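import Pool.Agent.H25.MM.H261R2.CM.Defs

/-!
# Task D: analysis on the unit circle
-/

set_option autoImplicit false

namespace Pool.Agent.H261R2.CM

open Polynomial Filter MeasureTheory

noncomputable section

theorem D_ez_eq (t : ℝ) : ez t = circleMap 0 1 (2 * Real.pi * t) := by
  simp only [ez, circleMap]
  push_cast
  rw [zero_add, one_mul]
  congr 1
  ring

theorem D_continuous_ez : Continuous ez := by
  unfold ez
  fun_prop

theorem D_norm_ez (t : ℝ) : ‖ez t‖ = 1 := by
  rw [D_ez_eq, norm_circleMap_zero, abs_one]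

theorem D_circleAverage {E : Type*} [NormedAddCommGroup E] [NormedSpace ℝ E] (f : ℂ → E) :
    Real.circleAverage f 0 1 = ∫ t in (0:ℝ)..1, f (ez t) := by
  have hpi : (2 * Real.pi : ℝ) ≠ 0 := by positivity
  have h := intervalIntegral.integral_comp_mul_left (a := 0) (b := 1)
    (fun θ => f (circleMap 0 1 θ)) hpi
  rw [mul_zero, mul_one] at h
  rw [Real.circleAverage_def, ← h]
  simp only [D_ez_eq]

/-- D2: Parseval. -/
theorem parseval (A : ℂ[X]) :
    ∑ j ∈ A.support, ‖A.coeff j‖ ^ 2 = ∫ t in (0:ℝ)..1, ‖A.eval (ez t)‖ ^ 2 := by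
  rw [sum_sq_norm_coeff_eq_circleAverage, D_circleAverage (fun z => ‖A.eval z‖ ^ 2)]

theorem D_integral_ez_pow (n : ℕ) (hn : n ≠ 0) : ∫ t in (0:ℝ)..1, ez t ^ n = 0 := by
  have hc : (2 * (Real.pi : ℂ) * Complex.I * n) ≠ 0 := by
    have h1 : (Real.pi : ℂ) ≠ 0 := by exact_mod_cast Real.pi_ne_zero
    have h2 : (n : ℂ) ≠ 0 := by exact_mod_cast hn
    simp [h1, h2, Complex.I_ne_zero]
  have h1 : ∀ t : ℝ, ez t ^ n = Complex.exp ((2 * (Real.pi : ℂ) * Complex.I * n) * t) := by
    intro t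
    rw [ez, ← Complex.exp_nat_mul]
    congr 1
    ring
  simp_rw [h1]
  rw [integral_exp_mul_complex hc]
  have h2 : Complex.exp (2 * (Real.pi : ℂ) * Complex.I * n * ((1 : ℝ) : ℂ)) = 1 := by
    rw [Complex.ofReal_one, mul_one, mul_comm]
    exact Complex.exp_nat_mul_two_pi_mul_I n
  rw [h2]
  simp

theorem D_integral_poly (P : ℂ[X]) : ∫ t in (0:ℝ)..1, P.eval (ez t) = P.coeff 0 := by
  induction P using Polynomial.induction_on' with
  | add p q hp hq =>
    simp only [eval_add, coeff_add]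
    rw [intervalIntegral.integral_add, hp, hq]
    · exact (p.continuous.comp D_continuous_ez).intervalIntegrable _ _
    · exact (q.continuous.comp D_continuous_ez).intervalIntegrable _ _
  | monomial n a =>
    simp only [eval_monomial, coeff_monomial]
    rw [intervalIntegral.integral_const_mul]
    by_cases hn : n = 0
    · subst hn; simp
    · rw [D_integral_ez_pow n hn, if_neg hn, mul_zero]

/-- real parts of elements of the span of the characters are real parts of polynomials -/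
theorem D_re_poly (g : C(AddCircle (1:ℝ), ℂ))
    (hg : g ∈ Submodule.span ℂ (Set.range (@fourier (1:ℝ)))) :
    ∀ c : ℂ, ∃ P : ℂ[X], ∀ t : ℝ, (c * g (t : AddCircle (1:ℝ))).re = (P.eval (ez t)).re := by
  have hf : ∀ (n : ℕ) (t : ℝ), fourier (n : ℤ) (t : AddCircle (1:ℝ)) = ez t ^ n := by
    intro n t
    rw [fourier_coe_apply, ez, ← Complex.exp_nat_mul]
    congr 1
    push_cast
    ring
  refine Submodule.span_induction ?_ ?_ ?_ ?_ hg
  · rintro _ ⟨n, rfl⟩ c
    rcases Int.eq_nat_or_neg n with ⟨m, rfl | rfl⟩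
    · refine ⟨C c * X ^ m, fun t => ?_⟩
      rw [hf]
      simp
    · refine ⟨C ((starRingEnd ℂ) c) * X ^ m, fun t => ?_⟩
      rw [fourier_neg, hf]
      simp only [eval_mul, eval_C, eval_pow, eval_X, Complex.mul_re, Complex.conj_re,
        Complex.conj_im]
      ring
  · intro c
    exact ⟨0, fun t => by simp⟩
  · intro g1 g2 _ _ h1 h2 c
    obtain ⟨P1, hP1⟩ := h1 c
    obtain ⟨P2, hP2⟩ := h2 c
    refine ⟨P1 + P2, fun t => ?_⟩
    rw [eval_add, Complex.add_re, ← hP1, ← hP2, ContinuousMap.add_apply, mul_add, Complex.add_re]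
  · intro a g1 _ h1 c
    obtain ⟨P, hP⟩ := h1 (c * a)
    refine ⟨P, fun t => ?_⟩
    rw [← hP, ContinuousMap.smul_apply, smul_eq_mul, mul_assoc]

/-- D1: the exponential of (the analytic completion of) a continuous function is uniformly
approximated by polynomials. -/
theorem exp_poly_approx (ψ : ℝ → ℝ) (hψ : Continuous ψ) (hper : Function.Periodic ψ 1)
    (ε : ℝ) (hε : 0 < ε) :
    ∃ q : ℂ[X], (∀ t : ℝ, Real.exp (ψ t - ε) ≤ ‖q.eval (ez t)‖ ∧
        ‖q.eval (ez t)‖ ≤ Real.exp (ψ t + ε)) ∧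
      Real.exp ((∫ t in (0:ℝ)..1, ψ t) - ε) ≤ ‖q.coeff 0‖ := by
  have : Fact ((0:ℝ) < 1) := ⟨one_pos⟩
  have hper' : Function.Periodic (fun t => (ψ t : ℂ)) 1 := fun t => by simp only [hper t]
  have hcont' : Continuous (fun t : ℝ => (ψ t : ℂ)) := Complex.continuous_ofReal.comp hψ
  let f : C(AddCircle (1:ℝ), ℂ) :=
    ⟨hper'.lift, continuous_coinduced_dom.mpr (by exact hcont')⟩
  have hf : ∀ t : ℝ, f (t : AddCircle (1:ℝ)) = (ψ t : ℂ) := fun t => hper'.lift_coe t
  have hmem : f ∈ (Submodule.span ℂ (Set.range (@fourier (1:ℝ)))).topologicalClosure := by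
    rw [span_fourier_closure_eq_top]
    trivial
  obtain ⟨g, hg, hfg⟩ := Metric.mem_closure_iff.mp hmem (ε / 4) (by positivity)
  obtain ⟨P, hP⟩ := D_re_poly g hg 1
  have hτ : ∀ t : ℝ, |(P.eval (ez t)).re - ψ t| ≤ ε / 4 := by
    intro t
    rw [← hP t, one_mul]
    have h1 : ‖(f - g) (t : AddCircle (1:ℝ))‖ ≤ ‖f - g‖ := ContinuousMap.norm_coe_le_norm _ _
    rw [← dist_eq_norm] at h1
    have h2 : ((f - g) (t : AddCircle (1:ℝ))).re = ψ t - (g (t : AddCircle (1:ℝ))).re := by
      rw [ContinuousMap.sub_apply, hf]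
      simp
    have h3 := Complex.abs_re_le_norm ((f - g) (t : AddCircle (1:ℝ)))
    rw [h2] at h3
    rw [abs_sub_comm]
    linarith [hfg.le]
  -- the bound on the circle and at zero
  obtain ⟨K0, hK0⟩ : ∃ K0 : ℝ, ∀ t : ℝ, ‖P.eval (ez t)‖ ≤ K0 := by
    obtain ⟨K0, hK0⟩ := (isCompact_closedBall (0:ℂ) 1).exists_bound_of_continuousOn
      P.continuous.continuousOn
    exact ⟨K0, fun t => hK0 _ (by simp [D_norm_ez])⟩
  set K : ℝ := max (max K0 ‖P.eval 0‖) 0 with hK
  have hKt : ∀ t : ℝ, ‖P.eval (ez t)‖ ≤ K := fun t =>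
    (hK0 t).trans ((le_max_left _ _).trans (le_max_left _ _))
  have hK00 : ‖P.eval 0‖ ≤ K := (le_max_right _ _).trans (le_max_left _ _)
  have hKnn : 0 ≤ K := le_max_right _ _
  set η : ℝ := Real.exp (-K) * (1 - Real.exp (-(ε / 4))) with hη
  have hexpl : Real.exp (-(ε / 4)) < 1 := by
    rw [Real.exp_lt_one_iff]; linarith
  have hηpos : 0 < η := mul_pos (Real.exp_pos _) (by linarith)
  obtain ⟨n, hn1, hn2⟩ : ∃ n : ℕ, K / (n.succ : ℝ) ≤ 1 / 2 ∧ K ^ n / (n.factorial : ℝ) * 2 ≤ η := by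
    have h1 := FloorSemiring.tendsto_pow_div_factorial_atTop K
    have h2 : Tendsto (fun n : ℕ => K ^ n / (n.factorial : ℝ) * 2) atTop (nhds 0) := by
      simpa using h1.mul_const 2
    have h3 := h2.eventually (Iic_mem_nhds hηpos)
    have h4 : ∀ᶠ n : ℕ in atTop, K / (n.succ : ℝ) ≤ 1 / 2 := by
      filter_upwards [eventually_ge_atTop (Nat.ceil (2 * K))] with n hn
      have h5 : 2 * K ≤ n := (Nat.le_ceil _).trans (by exact_mod_cast hn)
      rw [div_le_iff₀ (by positivity)]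
      push_cast
      linarith
    obtain ⟨n, hn⟩ := (h4.and h3).exists
    exact ⟨n, hn.1, hn.2⟩
  set q : ℂ[X] := ∑ m ∈ Finset.range n, C ((m.factorial : ℂ)⁻¹) * P ^ m with hq
  have hqe : ∀ z : ℂ, q.eval z = ∑ m ∈ Finset.range n, (P.eval z) ^ m / (m.factorial : ℂ) := by
    intro z
    rw [hq, eval_finsetSum]
    refine Finset.sum_congr rfl fun m _ => ?_
    simp only [eval_mul, eval_C, eval_pow]
    rw [div_eq_inv_mul]
  have hmain : ∀ z : ℂ, ‖P.eval z‖ ≤ K →
      Real.exp ((P.eval z).re - ε / 4) ≤ ‖q.eval z‖ ∧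
      ‖q.eval z‖ ≤ Real.exp ((P.eval z).re + ε / 4) := by
    intro z hz
    have h1 : ‖Complex.exp (P.eval z) - q.eval z‖ ≤ η := by
      rw [hqe]
      refine (Complex.exp_bound' (x := P.eval z) (n := n) ?_).trans ?_
      · exact (div_le_div_of_nonneg_right hz (by positivity)).trans hn1
      · refine le_trans ?_ hn2
        gcongr
    have h2 : ‖Complex.exp (P.eval z)‖ = Real.exp ((P.eval z).re) := Complex.norm_exp _
    have h3 : -K ≤ (P.eval z).re := by
      have := (abs_le.mp ((Complex.abs_re_le_norm (P.eval z)).trans hz)).1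
      exact this
    have h4 : η ≤ Real.exp ((P.eval z).re) * (1 - Real.exp (-(ε / 4))) := by
      rw [hη]
      exact mul_le_mul_of_nonneg_right (Real.exp_le_exp.mpr h3) (by linarith)
    have h5 : 1 + (1 - Real.exp (-(ε / 4))) ≤ Real.exp (ε / 4) := by
      have h6 := Real.add_one_le_exp (ε / 4)
      have h7 := Real.add_one_le_exp (-(ε / 4))
      have h8 : Real.exp (ε / 4) * Real.exp (-(ε / 4)) = 1 := by
        rw [← Real.exp_add]; simp
      have h9 : 0 < Real.exp (ε / 4) := Real.exp_pos _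
      have h10 : 0 < Real.exp (-(ε / 4)) := Real.exp_pos _
      nlinarith [sq_nonneg (Real.exp (ε / 4) - Real.exp (-(ε / 4))),
        sq_nonneg (Real.exp (ε / 4) + Real.exp (-(ε / 4)) - 2)]
    constructor
    · rw [Real.exp_sub, div_eq_mul_inv, ← Real.exp_neg]
      have h6 := norm_sub_norm_le (Complex.exp (P.eval z)) (q.eval z)
      rw [h2] at h6
      nlinarith [h6, h4, h1]
    · rw [Real.exp_add]
      have h6 := norm_sub_norm_le (q.eval z) (Complex.exp (P.eval z))
      rw [h2, norm_sub_rev] at h6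
      have h7 : 0 < Real.exp ((P.eval z).re) := Real.exp_pos _
      nlinarith [h6, h4, h1, mul_le_mul_of_nonneg_left h5 h7.le]
  refine ⟨q, fun t => ?_, ?_⟩
  · obtain ⟨h1, h2⟩ := hmain _ (hKt t)
    have h3 := abs_le.mp (hτ t)
    exact ⟨(Real.exp_le_exp.mpr (by linarith)).trans h1,
      h2.trans (Real.exp_le_exp.mpr (by linarith))⟩
  · obtain ⟨h1, -⟩ := hmain 0 hK00
    rw [coeff_zero_eq_eval_zero]
    refine le_trans (Real.exp_le_exp.mpr ?_) h1
    have h2 : (P.eval 0).re = ∫ t in (0:ℝ)..1, (P.eval (ez t)).re := by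
      rw [← coeff_zero_eq_eval_zero, ← D_integral_poly P]
      have h3 := Complex.reCLM.intervalIntegral_comp_comm (μ := volume) (a := 0) (b := 1)
        (f := fun t => P.eval (ez t))
        ((P.continuous.comp D_continuous_ez).intervalIntegrable _ _)
      simp only [Complex.reCLM_apply] at h3
      exact h3.symm
    have h4 : (∫ t in (0:ℝ)..1, ψ t) - ε / 4 ≤ ∫ t in (0:ℝ)..1, (P.eval (ez t)).re := by
      have h5 : (∫ t in (0:ℝ)..1, (ψ t - ε / 4)) = (∫ t in (0:ℝ)..1, ψ t) - ε / 4 := by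
        rw [intervalIntegral.integral_sub (hψ.intervalIntegrable _ _) (by simp)]
        simp
      rw [← h5]
      refine intervalIntegral.integral_mono_on zero_le_one
        ((hψ.sub continuous_const).intervalIntegrable _ _)
        ((Complex.continuous_re.comp (P.continuous.comp D_continuous_ez)).intervalIntegrable _ _)
        fun t _ => ?_
      have := abs_le.mp (hτ t)
      linarith
    rw [h2]
    linarith

/-! ### Mahler measure -/

theorem D_log_m1 (A : ℤ[X]) :
    Real.log (m1 A) = ∫ t in (0:ℝ)..1, Real.log ‖ev1 A t‖ := by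
  rw [m1, ← logMahlerMeasure_eq_log_MahlerMeasure, logMahlerMeasure_def,
    D_circleAverage (fun z => Real.log ‖(toC A).eval z‖)]
  rfl

theorem D_intervalIntegrable_log (A : ℤ[X]) :
    IntervalIntegrable (fun t => Real.log ‖ev1 A t‖) volume 0 1 := by
  have h := intervalIntegrable_mahlerMeasure (toC A)
  have h2 := h.comp_mul_left (c := 2 * Real.pi)
  have hpi : (2 * Real.pi : ℝ) ≠ 0 := by positivity
  rw [zero_div, div_self hpi] at h2
  have h3 : (fun t => Real.log ‖ev1 A t‖) =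
      fun t => Real.log ‖(toC A).eval (circleMap 0 1 (2 * Real.pi * t))‖ := by
    ext t
    simp only [ev1, D_ez_eq]
  rw [h3]
  exact h2

theorem D_toC_ne (A : ℤ[X]) (hA : A ≠ 0) : toC A ≠ 0 := by
  unfold toC
  exact (Polynomial.map_ne_zero_iff (RingHom.injective_int _)).mpr hA

theorem D_ae_ne (A : ℤ[X]) (hA : A ≠ 0) : ∀ᵐ t : ℝ, ev1 A t ≠ 0 := by
  have h1 : {t : ℝ | ev1 A t = 0} ⊆ ⋃ z ∈ ((toC A).roots.toFinset : Set ℂ), {t : ℝ | ez t = z} := by
    intro t ht
    simp only [Set.mem_iUnion, Set.mem_ofPred_eq]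
    refine ⟨ez t, ?_, rfl⟩
    rw [Finset.mem_coe, Multiset.mem_toFinset, mem_roots (D_toC_ne A hA)]
    exact ht
  have h2 : ∀ z : ℂ, {t : ℝ | ez t = z}.Countable := by
    intro z
    by_cases hz : ∃ s : ℝ, ez s = z
    · obtain ⟨s, rfl⟩ := hz
      refine (Set.countable_range fun n : ℤ => s + n).mono ?_
      intro t ht
      simp only [Set.mem_ofPred_eq, ez] at ht
      rw [Complex.exp_eq_exp_iff_exists_int] at ht
      obtain ⟨n, hn⟩ := ht
      refine ⟨n, ?_⟩
      have hne : (2 * (Real.pi : ℂ) * Complex.I) ≠ 0 := Complex.two_pi_I_ne_zero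
      have h3 : (t : ℂ) = s + n := by
        apply mul_left_cancel₀ hne
        rw [hn]
        ring
      simp only []
      exact_mod_cast h3.symm
    · have : {t : ℝ | ez t = z} = ∅ := by
        ext t
        simp only [Set.mem_ofPred_eq, Set.mem_empty_iff_false, iff_false]
        exact fun h => hz ⟨t, h⟩
      rw [this]
      exact Set.countable_empty
  have h3 : {t : ℝ | ev1 A t = 0}.Countable :=
    ((Set.Countable.biUnion (Finset.countable_toSet _) fun z _ => h2 z)).mono h1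
  rw [ae_iff]
  simpa using h3.measure_zero volume

theorem D_continuous_ev1 (A : ℤ[X]) : Continuous (ev1 A) :=
  (toC A).continuous.comp D_continuous_ez

theorem D_continuous_log (A : ℤ[X]) {δ : ℝ} (hδ : 0 < δ) :
    Continuous fun t => Real.log (‖ev1 A t‖ ^ 2 + δ) :=
  (((D_continuous_ev1 A).norm.pow 2).add continuous_const).log fun t =>
    (show 0 < ‖ev1 A t‖ ^ 2 + δ by positivity).ne'

/-- D3: one-variable Mahler measure as an integral, and `δ`-regularisation. -/
theorem m1_lower (A : ℤ[X]) (hA : A ≠ 0) (δ : ℝ) (hδ : 0 < δ) :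
    2 * Real.log (m1 A) ≤ ∫ t in (0:ℝ)..1, Real.log (‖ev1 A t‖ ^ 2 + δ) := by
  rw [D_log_m1, ← intervalIntegral.integral_const_mul]
  refine intervalIntegral.integral_mono_ae zero_le_one
    ((D_intervalIntegrable_log A).const_mul 2)
    ((D_continuous_log A hδ).intervalIntegrable _ _) ?_
  filter_upwards [D_ae_ne A hA] with t ht
  have h1 : 0 < ‖ev1 A t‖ := norm_pos_iff.mpr ht
  have h2 : 2 * Real.log ‖ev1 A t‖ = Real.log (‖ev1 A t‖ ^ 2) := by
    rw [Real.log_pow]; push_cast; ring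
  rw [h2]
  exact Real.log_le_log (by positivity) (by linarith)

theorem m1_upper (A : ℤ[X]) (hA : A ≠ 0) (x : ℝ) (hx : 2 * Real.log (m1 A) < x) :
    ∃ δ > 0, ∫ t in (0:ℝ)..1, Real.log (‖ev1 A t‖ ^ 2 + δ) < x := by
  have hlim : Tendsto (fun n : ℕ => ∫ t in (0:ℝ)..1, Real.log (‖ev1 A t‖ ^ 2 + 1 / ((n : ℝ) + 1)))
      atTop (nhds (∫ t in (0:ℝ)..1, 2 * Real.log ‖ev1 A t‖)) := by
    refine intervalIntegral.tendsto_integral_filter_of_dominated_convergence
      (fun t => |2 * Real.log ‖ev1 A t‖| + Real.log (‖ev1 A t‖ ^ 2 + 1)) ?_ ?_ ?_ ?_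
    · refine Eventually.of_forall fun n => ?_
      exact (D_continuous_log A (by positivity)).aestronglyMeasurable
    · refine Eventually.of_forall fun n => ?_
      filter_upwards [D_ae_ne A hA] with t ht _
      have h1 : 0 < ‖ev1 A t‖ := norm_pos_iff.mpr ht
      have h2 : 2 * Real.log ‖ev1 A t‖ = Real.log (‖ev1 A t‖ ^ 2) := by
        rw [Real.log_pow]; push_cast; ring
      have h3 : (0:ℝ) < 1 / ((n : ℝ) + 1) := by positivity
      have h4 : 1 / ((n : ℝ) + 1) ≤ 1 := by
        rw [div_le_one (by positivity)]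
        linarith [Nat.cast_nonneg (α := ℝ) n]
      have h5 : Real.log (‖ev1 A t‖ ^ 2) ≤ Real.log (‖ev1 A t‖ ^ 2 + 1 / ((n : ℝ) + 1)) :=
        Real.log_le_log (by positivity) (by linarith)
      have h6 : Real.log (‖ev1 A t‖ ^ 2 + 1 / ((n : ℝ) + 1)) ≤ Real.log (‖ev1 A t‖ ^ 2 + 1) :=
        Real.log_le_log (by positivity) (by linarith)
      have h7 : 0 ≤ Real.log (‖ev1 A t‖ ^ 2 + 1) :=
        Real.log_nonneg (by nlinarith [sq_nonneg ‖ev1 A t‖])
      rw [h2, Real.norm_eq_abs]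
      have h8 := neg_abs_le (Real.log (‖ev1 A t‖ ^ 2))
      have h9 := abs_nonneg (Real.log (‖ev1 A t‖ ^ 2))
      rw [abs_le]
      constructor
      · linarith
      · linarith
    · exact ((D_intervalIntegrable_log A).const_mul 2).abs.add
        ((D_continuous_log A one_pos).intervalIntegrable _ _)
    · filter_upwards [D_ae_ne A hA] with t ht _
      have h1 : 0 < ‖ev1 A t‖ := norm_pos_iff.mpr ht
      have h2 : 2 * Real.log ‖ev1 A t‖ = Real.log (‖ev1 A t‖ ^ 2) := by
        rw [Real.log_pow]; push_cast; ring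
      rw [h2]
      have h3 : Tendsto (fun n : ℕ => ‖ev1 A t‖ ^ 2 + 1 / ((n : ℝ) + 1)) atTop
          (nhds (‖ev1 A t‖ ^ 2)) := by
        simpa using tendsto_const_nhds.add (tendsto_one_div_add_atTop_nhds_zero_nat (𝕜 := ℝ))
      exact (Real.continuousAt_log (by positivity)).tendsto.comp h3
  rw [intervalIntegral.integral_const_mul, ← D_log_m1] at hlim
  obtain ⟨n, hn⟩ := (hlim.eventually (Iio_mem_nhds hx)).exists
  exact ⟨1 / ((n : ℝ) + 1), by positivity, hn⟩

/-- D4: outer function approximation. -/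
theorem outer_approx (A : ℤ[X]) (hA : A ≠ 0) (c : ℝ) (hc : c * m1 A < 1) :
    ∃ p : ℂ[X], (∀ t : ℝ, ‖(p * toC A).eval (ez t)‖ ≤ 1) ∧ c ≤ ‖p.coeff 0‖ := by
  rcases le_or_gt c 0 with hc0 | hc0
  · exact ⟨0, fun t => by simp, by simpa using hc0⟩
  have hm : 0 < m1 A := mahlerMeasure_pos_of_ne_zero (D_toC_ne A hA)
  have h1 : Real.log (m1 A) < -Real.log c := by
    have h2 : Real.log (c * m1 A) < 0 := Real.log_neg (by positivity) hc
    rw [Real.log_mul hc0.ne' hm.ne'] at h2
    linarith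
  set ε : ℝ := (-Real.log c - Real.log (m1 A)) / 4 with hε
  have hεpos : 0 < ε := by rw [hε]; linarith
  obtain ⟨δ, hδ, hδx⟩ := m1_upper A hA (-2 * Real.log c - 4 * ε) (by rw [hε]; linarith)
  set ψ : ℝ → ℝ := fun t => -(1 / 2) * Real.log (‖ev1 A t‖ ^ 2 + δ) - ε with hψ
  have hψc : Continuous ψ := ((D_continuous_log A hδ).const_mul _).sub continuous_const
  have hper : Function.Periodic ψ 1 := by
    intro t
    have : ez (t + 1) = ez t := by
      simp only [ez]
      push_cast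
      rw [mul_add, mul_one, Complex.exp_add, Complex.exp_two_pi_mul_I, mul_one]
    simp only [hψ, ev1, this]
  obtain ⟨q, hq1, hq2⟩ := exp_poly_approx ψ hψc hper ε hεpos
  refine ⟨q, fun t => ?_, ?_⟩
  · have h2 := (hq1 t).2
    have hpos : 0 < ‖ev1 A t‖ ^ 2 + δ := by positivity
    have h3 : Real.exp (ψ t + ε) = (Real.sqrt (‖ev1 A t‖ ^ 2 + δ))⁻¹ := by
      simp only [hψ]
      rw [sub_add_cancel, Real.sqrt_eq_rpow, Real.rpow_def_of_pos hpos, ← Real.exp_neg]
      congr 1
      ring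
    rw [h3] at h2
    have h4 : ‖ev1 A t‖ ≤ Real.sqrt (‖ev1 A t‖ ^ 2 + δ) := by
      apply Real.le_sqrt_of_sq_le
      linarith
    have h5 : 0 < Real.sqrt (‖ev1 A t‖ ^ 2 + δ) := Real.sqrt_pos.mpr hpos
    rw [eval_mul, norm_mul]
    calc ‖q.eval (ez t)‖ * ‖(toC A).eval (ez t)‖
        ≤ (Real.sqrt (‖ev1 A t‖ ^ 2 + δ))⁻¹ * Real.sqrt (‖ev1 A t‖ ^ 2 + δ) :=
          mul_le_mul h2 h4 (norm_nonneg _) (by positivity)
      _ = 1 := inv_mul_cancel₀ h5.ne'
  · refine le_trans ?_ hq2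
    have h2 : (∫ t in (0:ℝ)..1, ψ t) =
        -(1 / 2) * (∫ t in (0:ℝ)..1, Real.log (‖ev1 A t‖ ^ 2 + δ)) - ε := by
      simp only [hψ]
      rw [intervalIntegral.integral_sub
        (((D_continuous_log A hδ).const_mul _).intervalIntegrable _ _) (by simp),
        intervalIntegral.integral_const_mul]
      simp
    rw [h2]
    calc c = Real.exp (Real.log c) := (Real.exp_log hc0).symm
      _ ≤ _ := Real.exp_le_exp.mpr (by linarith)

end

end Pool.Agent.H261R2.CM
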