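import Pool.Agent.H25.MM.H261R2.CM.Defs

/-!
# Definitions for the exhaustion theorem

`mass P`    squared `ℓ²` norm of the coefficients of `P`
`N21`, `N2` integral of `log (|A|² + |B|²)` over the circle, the torus
`mx1`, `mx` integral of `log max(|A|, |B|)` over the circle, the torus
-/

set_option autoImplicit false

namespace Pool.Agent.H261R2.CM

open Polynomial Filter MeasureTheory

noncomputable section

/-- squared `ℓ²` norm of the coefficients -/
def mass (P : ℂ[X]) : ℝ := ∑ j ∈ P.support, ‖P.coeff j‖ ^ 2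

/-- integral of `log (|A|² + |B|²)` over the circle -/
def N21 (A B : ℤ[X]) : ℝ := ∫ t in (0:ℝ)..1, Real.log (‖ev1 A t‖ ^ 2 + ‖ev1 B t‖ ^ 2)

/-- integral of `log (|C|² + |D|²)` over the torus -/
def N2 {k : ℕ} (C D : MvPolynomial (Fin k) ℤ) : ℝ :=
  ∫ t in Set.Icc (0 : Fin k → ℝ) 1, Real.log (‖tv C t‖ ^ 2 + ‖tv D t‖ ^ 2)

/-- integral of `log max(|A|, |B|)` over the circle -/
def mx1 (A B : ℤ[X]) : ℝ := ∫ t in (0:ℝ)..1, Real.log (max ‖ev1 A t‖ ‖ev1 B t‖)

/-- integral of `log max(|C|, |D|)` over the torus -/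
def mx {k : ℕ} (C D : MvPolynomial (Fin k) ℤ) : ℝ :=
  ∫ t in Set.Icc (0 : Fin k → ℝ) 1, Real.log (max ‖tv C t‖ ‖tv D t‖)

end

end Pool.Agent.H261R2.CM
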