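import Pool.Agent.H25.MM.H261R2.CM.Defs

/-!
# Definitions shared by the tasks H1 and H2 (verbatim from the blueprint)
-/

set_option autoImplicit false

namespace Pool.Agent.H261R2.CM

open Polynomial Filter MeasureTheory Matrix
open scoped ComplexOrder

noncomputable section

/-- autocorrelation of an integer polynomial -/
def acorr {k : ℕ} (P : MvPolynomial (Fin k) ℤ) (v : Fin k → ℤ) : ℤ :=
  ∑ a ∈ P.support, ∑ b ∈ P.support,
    if (∀ i, (a i : ℤ) - (b i : ℤ) = v i) then P.coeff a * P.coeff b else 0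

/-- `max (deg_i C) (deg_i D)` -/
def dm {k : ℕ} (C D : MvPolynomial (Fin k) ℤ) (i : Fin k) : ℕ :=
  max (C.degreeOf i) (D.degreeOf i)

/-- the box of exponents `t` with `t_i + max (deg_i C) (deg_i D) < R` -/
abbrev Box {k : ℕ} (C D : MvPolynomial (Fin k) ℤ) (R : ℕ) : Type := (i : Fin k) → Fin (R - dm C D i)

/-- Gram matrix of the vectors `X^t (C, D)`, `t` in the box. -/
def gramY {k : ℕ} (C D : MvPolynomial (Fin k) ℤ) (R : ℕ) : Matrix (Box C D R) (Box C D R) ℝ :=
  Matrix.of fun s t =>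
    ((acorr C (fun i => ((s i : ℕ) : ℤ) - ((t i : ℕ) : ℤ)) +
      acorr D (fun i => ((s i : ℕ) : ℤ) - ((t i : ℕ) : ℤ)) : ℤ) : ℝ)

end

end Pool.Agent.H261R2.CM
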