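import Pool.Agent.H25.MM.H261R2.CM.E
import Pool.Agent.H25.MM.H261R2.CM.F
import Pool.Agent.H25.MM.H261R2.CM.HDefs

/-!
# Task H2a: lower bound for the Gram determinant
-/

set_option autoImplicit false

namespace Pool.Agent.H261R2.CM

open Polynomial Filter MeasureTheory Matrix Topology

noncomputable section

/-- exponential of integer frequency -/
def H2_E (m : ℤ) (u : ℝ) : ℂ := Complex.exp (2 * (Real.pi : ℂ) * Complex.I * m * ((u : ℝ) : ℂ))

lemma H2_E_cont (m : ℤ) : Continuous (H2_E m) := by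
  unfold H2_E
  fun_prop

lemma H2_E_add (m n : ℤ) (u : ℝ) : H2_E (m + n) u = H2_E m u * H2_E n u := by
  unfold H2_E
  rw [← Complex.exp_add]
  congr 1
  push_cast
  ring

lemma H2_E_conj (m : ℤ) (u : ℝ) : (starRingEnd ℂ) (H2_E m u) = H2_E (-m) u := by
  unfold H2_E
  rw [← Complex.exp_conj]
  congr 1
  simp only [map_mul, Complex.conj_I, Complex.conj_ofReal, map_intCast, map_ofNat]
  push_cast
  ring

lemma H2_ez (m : ℤ) (u : ℝ) : ez ((m : ℝ) * u) = H2_E m u := by
  unfold ez H2_E
  congr 1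
  push_cast
  ring

lemma H2_int (m : ℤ) : ∫ u in (0:ℝ)..1, H2_E m u = if m = 0 then 1 else 0 := F_int_exp m

lemma H2_ev {k : ℕ} (P : MvPolynomial (Fin k) ℤ) (e : Fin k → ℕ) (u : ℝ) :
    ev1 (spec e P) u =
      ∑ a ∈ P.support, ((P.coeff a : ℤ) : ℂ) * H2_E (∑ i, (a i : ℤ) * (e i : ℤ)) u := by
  rw [F_ev1, F_tv]
  unfold F_G
  rw [ContinuousMap.coe_sum, Finset.sum_apply]
  refine Finset.sum_congr rfl fun s _ => ?_
  rw [ContinuousMap.smul_apply, F_mFourier_cv, smul_eq_mul]
  rfl

lemma H2_sq {k : ℕ} (P : MvPolynomial (Fin k) ℤ) (e : Fin k → ℕ) (u : ℝ) :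
    ((‖ev1 (spec e P) u‖ ^ 2 : ℝ) : ℂ) =
      ∑ a ∈ P.support, ∑ b ∈ P.support, ((P.coeff a * P.coeff b : ℤ) : ℂ) *
        H2_E (∑ i, ((a i : ℤ) - (b i : ℤ)) * (e i : ℤ)) u := by
  push_cast
  rw [← Complex.mul_conj', H2_ev, map_sum, Finset.sum_mul_sum]
  refine Finset.sum_congr rfl fun a _ => Finset.sum_congr rfl fun b _ => ?_
  have h1 : ∑ i, ((a i : ℤ) - (b i : ℤ)) * (e i : ℤ) =
      ∑ i, (a i : ℤ) * (e i : ℤ) + -(∑ i, (b i : ℤ) * (e i : ℤ)) := by
    rw [← sub_eq_add_neg, ← Finset.sum_sub_distrib]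
    refine Finset.sum_congr rfl fun i _ => ?_
    ring
  rw [map_mul, H2_E_conj, map_intCast, h1, H2_E_add]
  ring

lemma H2_int_sq {k : ℕ} (P : MvPolynomial (Fin k) ℤ) (e : Fin k → ℕ) (m : ℤ) :
    ∫ u in (0:ℝ)..1, ((‖ev1 (spec e P) u‖ ^ 2 : ℝ) : ℂ) * H2_E m u =
      ∑ a ∈ P.support, ∑ b ∈ P.support,
        if (∑ i, ((a i : ℤ) - (b i : ℤ)) * (e i : ℤ)) + m = 0 then
          ((P.coeff a * P.coeff b : ℤ) : ℂ) else 0 := by
  have h1 : ∀ u : ℝ, ((‖ev1 (spec e P) u‖ ^ 2 : ℝ) : ℂ) * H2_E m u =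
      ∑ a ∈ P.support, ∑ b ∈ P.support, ((P.coeff a * P.coeff b : ℤ) : ℂ) *
        H2_E ((∑ i, ((a i : ℤ) - (b i : ℤ)) * (e i : ℤ)) + m) u := by
    intro u
    rw [H2_sq, Finset.sum_mul]
    refine Finset.sum_congr rfl fun a _ => ?_
    rw [Finset.sum_mul]
    refine Finset.sum_congr rfl fun b _ => ?_
    rw [H2_E_add, mul_assoc]
  simp_rw [h1]
  rw [intervalIntegral.integral_finsetSum]
  · refine Finset.sum_congr rfl fun a _ => ?_
    rw [intervalIntegral.integral_finsetSum]
    · refine Finset.sum_congr rfl fun b _ => ?_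
      rw [intervalIntegral.integral_const_mul, H2_int, mul_ite, mul_one, mul_zero]
    · intro b _
      exact (continuous_const.mul (H2_E_cont _)).intervalIntegrable _ _
  · intro a _
    exact (continuous_finsetSum _ fun b _ =>
      continuous_const.mul (H2_E_cont _)).intervalIntegrable _ _

theorem gram_lower {k : ℕ} (C D : MvPolynomial (Fin k) ℤ) (_hC : C ≠ 0) (R : ℕ) (ℓ : ℝ)
    (hℓ : ∀ δ > 0, ℓ ≤ ∫ t in Set.Icc (0 : Fin k → ℝ) 1,
      Real.log (‖tv C t‖ ^ 2 + ‖tv D t‖ ^ 2 + δ)) :
    Real.exp ((∏ i, ((R - dm C D i : ℕ) : ℝ)) * ℓ) ≤ (gramY C D R).det := by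
  classical
  set e : ℕ → Fin k → ℕ := fun (n : ℕ) (i : Fin k) => n ^ (i : ℕ) with he
  have hind : AsympIndep atTop e := asympIndep_pow k
  have hcard : ((Fintype.card (Box C D R) : ℕ) : ℝ) = ∏ i, ((R - dm C D i : ℕ) : ℝ) := by
    rw [Fintype.card_pi]
    simp
  -- good levels for one polynomial
  have hgood : ∀ P : MvPolynomial (Fin k) ℤ, ∀ᶠ n in (atTop : Filter ℕ), ∀ a ∈ P.support,
      ∀ b ∈ P.support, ∀ s t : Box C D R,
        ((∑ i, ((a i : ℤ) - (b i : ℤ)) * (e n i : ℤ)) +
            (∑ i, (((t i : ℕ) : ℤ) - ((s i : ℕ) : ℤ)) * (e n i : ℤ)) = 0 ↔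
          ∀ i, (a i : ℤ) - (b i : ℤ) = ((s i : ℕ) : ℤ) - ((t i : ℕ) : ℤ)) := by
    intro P
    rw [eventually_all_finset]
    intro a _
    rw [eventually_all_finset]
    intro b _
    rw [eventually_all]
    intro s
    rw [eventually_all]
    intro t
    by_cases hz : (fun i => ((a i : ℤ) - (b i : ℤ)) +
        (((t i : ℕ) : ℤ) - ((s i : ℕ) : ℤ))) = (0 : Fin k → ℤ)
    · refine Eventually.of_forall fun n => ?_
      have hz' : ∀ i, ((a i : ℤ) - (b i : ℤ)) + (((t i : ℕ) : ℤ) - ((s i : ℕ) : ℤ)) = 0 :=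
        fun i => congrFun hz i
      constructor
      · intro _ i
        have := hz' i
        linarith
      · intro _
        rw [← Finset.sum_add_distrib]
        refine Finset.sum_eq_zero fun i _ => ?_
        rw [← add_mul, hz' i, zero_mul]
    · filter_upwards [hind _ hz] with n hn
      constructor
      · intro h0
        exfalso
        apply hn
        rw [← h0, ← Finset.sum_add_distrib]
        refine Finset.sum_congr rfl fun i _ => ?_
        ring
      · intro h0
        exfalso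
        apply hz
        funext i
        have := h0 i
        simp only [Pi.zero_apply]
        linarith
  have hinj : ∀ᶠ n in (atTop : Filter ℕ), ∀ s t : Box C D R,
      (∑ i, (((t i : ℕ) : ℤ) - ((s i : ℕ) : ℤ)) * (e n i : ℤ)) = 0 → s = t := by
    rw [eventually_all]
    intro s
    rw [eventually_all]
    intro t
    by_cases hst : s = t
    · exact Eventually.of_forall fun n _ => hst
    · have hne : (fun i => (((t i : ℕ) : ℤ) - ((s i : ℕ) : ℤ))) ≠ (0 : Fin k → ℤ) := by
        intro h0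
        apply hst
        funext i
        have := congrFun h0 i
        simp only [Pi.zero_apply] at this
        apply Fin.ext
        omega
      filter_upwards [hind _ hne] with n hn h0
      exact absurd h0 hn
  -- the inequality with δ
  have hδ : ∀ δ : ℝ, 0 < δ → Real.exp ((∏ i, ((R - dm C D i : ℕ) : ℝ)) * ℓ) ≤
      (gramY C D R + δ • (1 : Matrix (Box C D R) (Box C D R) ℝ)).det := by
    intro δ hδ
    have hlevel : ∀ᶠ n in (atTop : Filter ℕ),
        Real.exp (Fintype.card (Box C D R) * ∫ t in (0:ℝ)..1,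
          Real.log (‖ev1 (spec (e n) C) t‖ ^ 2 + ‖ev1 (spec (e n) D) t‖ ^ 2 + δ)) ≤
        (gramY C D R + δ • (1 : Matrix (Box C D R) (Box C D R) ℝ)).det := by
      filter_upwards [hgood C, hgood D, hinj] with n hnC hnD hni
      set m : Box C D R → ℤ := fun t => -∑ i, ((t i : ℕ) : ℤ) * (e n i : ℤ) with hm
      have hms : ∀ s t : Box C D R, m s - m t =
          ∑ i, (((t i : ℕ) : ℤ) - ((s i : ℕ) : ℤ)) * (e n i : ℤ) := by
        intro s t
        simp only [hm]
        rw [neg_sub_neg, ← Finset.sum_sub_distrib]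
        refine Finset.sum_congr rfl fun i _ => ?_
        ring
      have hminj : Function.Injective m := by
        intro s t hst
        refine hni s t ?_
        rw [← hms, hst, sub_self]
      have hw : Continuous fun t : ℝ =>
          ‖ev1 (spec (e n) C) t‖ ^ 2 + ‖ev1 (spec (e n) D) t‖ ^ 2 + δ := by
        have h1 := D_continuous_ev1 (spec (e n) C)
        have h2 := D_continuous_ev1 (spec (e n) D)
        fun_prop
      have hper : Function.Periodic (fun t : ℝ =>
          ‖ev1 (spec (e n) C) t‖ ^ 2 + ‖ev1 (spec (e n) D) t‖ ^ 2 + δ) 1 := by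
        intro t
        have h1 : ez (t + 1) = ez t := by
          unfold ez
          rw [Complex.exp_eq_exp_iff_exists_int]
          exact ⟨1, by push_cast; ring⟩
        simp only [ev1, h1]
      have hT := toeplitz_lower m hminj _ hw hper (fun t => by positivity)
        ((gramY C D R + δ • (1 : Matrix (Box C D R) (Box C D R) ℝ)).map Complex.ofRealHom) ?_
      · have h2 : (((gramY C D R + δ • (1 : Matrix (Box C D R) (Box C D R) ℝ)).map
            Complex.ofRealHom).det) =
            (((gramY C D R + δ • (1 : Matrix (Box C D R) (Box C D R) ℝ)).det : ℝ) : ℂ) := by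
          have := RingHom.map_det Complex.ofRealHom
            (gramY C D R + δ • (1 : Matrix (Box C D R) (Box C D R) ℝ))
          rw [Complex.ofRealHom_eq_coe] at this
          rw [this]
          rfl
        rw [h2, Complex.ofReal_re] at hT
        exact hT
      · intro s t
        have h3 : ∀ u : ℝ, ((‖ev1 (spec (e n) C) u‖ ^ 2 + ‖ev1 (spec (e n) D) u‖ ^ 2 + δ : ℝ) : ℂ) *
            ez (((m s - m t : ℤ) : ℝ) * u) =
            ((‖ev1 (spec (e n) C) u‖ ^ 2 : ℝ) : ℂ) * H2_E (m s - m t) u +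
            ((‖ev1 (spec (e n) D) u‖ ^ 2 : ℝ) : ℂ) * H2_E (m s - m t) u +
            (δ : ℂ) * H2_E (m s - m t) u := by
          intro u
          rw [H2_ez]
          push_cast
          ring
        have hc : ∀ P : ℤ[X], Continuous fun u : ℝ => ((‖ev1 P u‖ ^ 2 : ℝ) : ℂ) := by
          intro P
          exact Complex.continuous_ofReal.comp ((D_continuous_ev1 P).norm.pow 2)
        simp_rw [h3]
        rw [intervalIntegral.integral_add, intervalIntegral.integral_add,
          intervalIntegral.integral_const_mul, H2_int, H2_int_sq, H2_int_sq]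
        · have h4 : ∀ P : MvPolynomial (Fin k) ℤ, (∀ a ∈ P.support,
              ∀ b ∈ P.support, ∀ s t : Box C D R,
              ((∑ i, ((a i : ℤ) - (b i : ℤ)) * (e n i : ℤ)) +
                  (∑ i, (((t i : ℕ) : ℤ) - ((s i : ℕ) : ℤ)) * (e n i : ℤ)) = 0 ↔
                ∀ i, (a i : ℤ) - (b i : ℤ) = ((s i : ℕ) : ℤ) - ((t i : ℕ) : ℤ))) →
              (∑ a ∈ P.support, ∑ b ∈ P.support,
                if (∑ i, ((a i : ℤ) - (b i : ℤ)) * (e n i : ℤ)) + (m s - m t) = 0 then
                  ((P.coeff a * P.coeff b : ℤ) : ℂ) else 0) =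
              ((acorr P (fun i => ((s i : ℕ) : ℤ) - ((t i : ℕ) : ℤ)) : ℤ) : ℂ) := by
            intro P hP
            unfold acorr
            rw [Int.cast_sum]
            refine Finset.sum_congr rfl fun a ha => ?_
            rw [Int.cast_sum]
            refine Finset.sum_congr rfl fun b hb => ?_
            rw [hms]
            simp only [hP a ha b hb s t]
            split_ifs <;> simp
          rw [h4 C hnC, h4 D hnD]
          have h5 : (m s - m t = 0) ↔ s = t := by
            rw [sub_eq_zero]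
            exact hminj.eq_iff
          rw [Matrix.map_apply, Matrix.add_apply, Matrix.smul_apply, Matrix.one_apply]
          simp only [gramY, Matrix.of_apply, h5, Complex.ofRealHom_eq_coe, smul_eq_mul]
          push_cast
          split_ifs <;> simp
        · exact ((hc _).mul (H2_E_cont _)).intervalIntegrable _ _
        · exact ((hc _).mul (H2_E_cont _)).intervalIntegrable _ _
        · exact (((hc _).mul (H2_E_cont _)).add ((hc _).mul (H2_E_cont _))).intervalIntegrable _ _
        · exact (continuous_const.mul (H2_E_cont _)).intervalIntegrable _ _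
    have hlim := equidist_log atTop e hind C D δ hδ
    have hlim2 : Tendsto (fun n => Real.exp (Fintype.card (Box C D R) * ∫ t in (0:ℝ)..1,
          Real.log (‖ev1 (spec (e n) C) t‖ ^ 2 + ‖ev1 (spec (e n) D) t‖ ^ 2 + δ))) atTop
        (𝓝 (Real.exp (Fintype.card (Box C D R) * ∫ t in Set.Icc (0 : Fin k → ℝ) 1,
          Real.log (‖tv C t‖ ^ 2 + ‖tv D t‖ ^ 2 + δ)))) :=
      (Real.continuous_exp.tendsto _).comp (hlim.const_mul _)
    refine le_trans ?_ (le_of_tendsto hlim2 hlevel)
    rw [← hcard]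
    exact Real.exp_le_exp.mpr (mul_le_mul_of_nonneg_left (hℓ δ hδ) (Nat.cast_nonneg _))
  -- δ → 0
  have hcont : Continuous fun δ : ℝ =>
      (gramY C D R + δ • (1 : Matrix (Box C D R) (Box C D R) ℝ)).det := by
    refine Continuous.matrix_det ?_
    fun_prop
  have hlim : Tendsto (fun δ : ℝ =>
      (gramY C D R + δ • (1 : Matrix (Box C D R) (Box C D R) ℝ)).det) (𝓝[>] 0)
      (𝓝 (gramY C D R).det) := by
    have h1 := (hcont.tendsto 0).mono_left (nhdsWithin_le_nhds (s := Set.Ioi (0:ℝ)))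
    simpa using h1
  refine ge_of_tendsto hlim ?_
  filter_upwards [self_mem_nhdsWithin] with δ hδ0
  exact hδ δ hδ0

end

end Pool.Agent.H261R2.CM
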