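import Pool.Agent.H25.MM.H261R2.CM.H1
import Pool.Agent.H25.MM.H261R2.CM.F
import Pool.Agent.H25.MM.H261R2.CM.H2a

set_option autoImplicit false

namespace Pool.Agent.H261R2.CM

open Polynomial Filter MeasureTheory Matrix Topology

noncomputable section

theorem final_ineq {k : ℕ} (C D : MvPolynomial (Fin k) ℤ) (hC : C ≠ 0) (hD : D ≠ 0)
    (hCD : IsRelPrime C D) (𝓕 : Filter ℕ) [𝓕.NeBot] (e : ℕ → Fin k → ℕ) (he : AsympIndep 𝓕 e)
    (A B : ℕ → ℤ[X]) (hA : ∀ n, A n ≠ 0) (hB : ∀ n, B n ≠ 0)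
    (hrel : ∀ᶠ n in 𝓕, spec (e n) D * A n = spec (e n) C * B n)
    (p : ℕ → ℂ[X]) (c : ℝ) (hc : 0 < c) (hp : ∀ᶠ n in 𝓕, c ≤ ‖(p n).coeff 0‖)
    (hpA : ∀ n, l2le (p n * toC (A n))) (hpB : ∀ n, l2le (p n * toC (B n))) (ℓ : ℝ)
    (hℓ : ∀ δ > 0, ℓ ≤ ∫ t in Set.Icc (0 : Fin k → ℝ) 1,
      Real.log (‖tv C t‖ ^ 2 + ‖tv D t‖ ^ 2 + δ)) :
    ℓ ≤ Real.log 2 - 2 * Real.log c := by
  classical
  -- the inequality for every large R
  have hmain : ∀ R : ℕ, 1 ≤ R → (∀ i, dm C D i < R) →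
      (∏ i, ((R - dm C D i : ℕ) : ℝ)) * ℓ ≤
        (2 * (R : ℝ) ^ k - ∏ i, ((R - dm C D i : ℕ) : ℝ)) *
          Real.log ((2 * (R : ℝ) ^ k) /
            (c ^ 2 * (2 * (R : ℝ) ^ k - ∏ i, ((R - dm C D i : ℕ) : ℝ)))) := by
    intro R hR1 hR
    have hfin : Set.Finite {s : Fin k → ℤ | ∀ i, |s i| ≤ 4 * (R : ℤ)} := by
      have h1 : Set.Finite (Set.Icc (fun _ : Fin k => -(4 * (R : ℤ))) (fun _ => 4 * (R : ℤ))) :=
        Set.finite_Icc _ _
      refine h1.subset ?_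
      intro s hs
      rw [Set.mem_Icc, Pi.le_def, Pi.le_def]
      exact ⟨fun i => (abs_le.mp (hs i)).1, fun i => (abs_le.mp (hs i)).2⟩
    have hev : ∀ᶠ n in 𝓕, ∀ s ∈ {s : Fin k → ℤ | ∀ i, |s i| ≤ 4 * (R : ℤ)}, s ≠ 0 →
        ∑ i, s i * (e n i : ℤ) ≠ 0 := by
      rw [Filter.eventually_all_finite hfin]
      intro s _
      by_cases hs0 : s = 0
      · exact Filter.Eventually.of_forall fun n h => absurd hs0 h
      · filter_upwards [he s hs0] with n hn _
        exact hn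
    obtain ⟨n, hn1, hn2, hn3⟩ := (hev.and (hrel.and hp)).exists
    have hle : ∏ i, (R - dm C D i) ≤ R ^ k := by
      calc ∏ i, (R - dm C D i) ≤ ∏ _i : Fin k, R :=
            Finset.prod_le_prod' fun i _ => Nat.sub_le _ _
        _ = R ^ k := by simp
    have hRk : 0 < R ^ k := Nat.pow_pos (by omega)
    set r : ℕ := 2 * R ^ k - ∏ i, (R - dm C D i) with hr
    have hr' : r + ∏ i, (R - dm C D i) = 2 * R ^ k := by omega
    have hrpos : 0 < r := by omega
    have hrR : (2 * (R : ℝ) ^ k - ∏ i, ((R - dm C D i : ℕ) : ℝ)) = (r : ℝ) := by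
      have h1 : ((r + ∏ i, (R - dm C D i) : ℕ) : ℝ) = ((2 * R ^ k : ℕ) : ℝ) := by rw [hr']
      push_cast at h1
      linarith
    have hup := gram_upper C D hC hD hCD R hR (e n) (fun s hs hs0 => hn1 s hs hs0) (A n) (B n)
      (hA n) (hB n) hn2 (p n) c hc hn3 (hpA n) (hpB n) r hr'
    have hlo := gram_lower C D hC R ℓ hℓ
    have hcomb := le_trans hlo hup
    have hlog := Real.log_le_log (Real.exp_pos _) hcomb
    rw [Real.log_exp, Real.log_pow] at hlog
    rw [hrR]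
    exact hlog
  -- asymptotics
  have hf : Tendsto (fun R : ℕ => (∏ i, ((R - dm C D i : ℕ) : ℝ)) / (R : ℝ) ^ k) atTop (𝓝 1) := by
    have h1 : ∀ i : Fin k, Tendsto (fun R : ℕ => ((R - dm C D i : ℕ) : ℝ) / (R : ℝ)) atTop (𝓝 1) := by
      intro i
      have h2 : Tendsto (fun R : ℕ => 1 - (dm C D i : ℝ) / (R : ℝ)) atTop (𝓝 (1 - 0)) :=
        tendsto_const_nhds.sub (tendsto_const_div_atTop_nhds_zero_nat _)
      rw [sub_zero] at h2
      refine h2.congr' ?_
      filter_upwards [eventually_ge_atTop (dm C D i + 1)] with R hR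
      have hRpos : (0 : ℝ) < R := by
        have : 0 < R := by omega
        exact_mod_cast this
      rw [Nat.cast_sub (by omega)]
      field_simp
    have h3 : Tendsto (fun R : ℕ => ∏ i : Fin k, (((R - dm C D i : ℕ) : ℝ) / (R : ℝ))) atTop
        (𝓝 (∏ _i : Fin k, 1)) := tendsto_finsetProd _ fun i _ => h1 i
    rw [Finset.prod_const_one] at h3
    refine h3.congr fun R => ?_
    rw [Finset.prod_div_distrib]
    simp
  let g : ℝ → ℝ := fun x => (2 - x) * Real.log (2 / (c ^ 2 * (2 - x))) - x * ℓ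
  have hg : ContinuousAt g 1 := by
    have hc2 : c ^ 2 * (2 - 1) ≠ 0 := by
      have : 0 < c ^ 2 := by positivity
      linarith
    have hne : (2 : ℝ) / (c ^ 2 * (2 - 1)) ≠ 0 := div_ne_zero two_ne_zero hc2
    refine ContinuousAt.sub ?_ (continuousAt_id.mul continuousAt_const)
    refine ContinuousAt.mul (continuousAt_const.sub continuousAt_id) ?_
    refine ContinuousAt.log ?_ hne
    exact ContinuousAt.div continuousAt_const
      (continuousAt_const.mul (continuousAt_const.sub continuousAt_id)) hc2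
  have hlim : Tendsto (fun R : ℕ => g ((∏ i, ((R - dm C D i : ℕ) : ℝ)) / (R : ℝ) ^ k)) atTop
      (𝓝 (g 1)) := hg.tendsto.comp hf
  have hnonneg : 0 ≤ g 1 := by
    refine ge_of_tendsto hlim ?_
    have hbig : ∀ᶠ R : ℕ in atTop, ∀ i, dm C D i < R := by
      rw [Filter.eventually_all]
      intro i
      exact eventually_gt_atTop _
    filter_upwards [hbig, eventually_ge_atTop 1] with R hR hR1
    have hRpos : (0 : ℝ) < (R : ℝ) ^ k := by
      have : (0 : ℝ) < R := by exact_mod_cast (by omega : 0 < R)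
      positivity
    have h1 := hmain R hR1 hR
    set ρ : ℝ := ∏ i, ((R - dm C D i : ℕ) : ℝ) with hρ
    have h2 : (2 * (R : ℝ) ^ k) / (c ^ 2 * (2 * (R : ℝ) ^ k - ρ)) =
        2 / (c ^ 2 * (2 - ρ / (R : ℝ) ^ k)) := by
      have h3 : 2 * (R : ℝ) ^ k - ρ = (R : ℝ) ^ k * (2 - ρ / (R : ℝ) ^ k) := by
        field_simp
      rw [h3, ← mul_assoc, mul_comm (c ^ 2) ((R : ℝ) ^ k), mul_assoc, mul_comm (2 : ℝ),
        mul_div_mul_left _ _ hRpos.ne']
    rw [h2] at h1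
    have h4 : g (ρ / (R : ℝ) ^ k) = ((2 * (R : ℝ) ^ k - ρ) *
        Real.log (2 / (c ^ 2 * (2 - ρ / (R : ℝ) ^ k))) - ρ * ℓ) / (R : ℝ) ^ k := by
      simp only [g]
      field_simp
    rw [h4]
    exact div_nonneg (by linarith) hRpos.le
  have hg1 : g 1 = Real.log 2 - 2 * Real.log c - ℓ := by
    simp only [g]
    have : (2 : ℝ) - 1 = 1 := by norm_num
    rw [this, mul_one, one_mul, one_mul, Real.log_div two_ne_zero (by positivity), Real.log_pow]
    push_cast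
    ring
  rw [hg1] at hnonneg
  linarith

end

end Pool.Agent.H261R2.CM
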