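import Pool.Agent.H25.MM.H261R2.CM.I1

set_option autoImplicit false

namespace Pool.Agent.H261R2.CM

open Polynomial Filter MeasureTheory Matrix Topology

noncomputable section

/-- Reduction of a pair of one-variable polynomials with the same modulus. -/
theorem I2_reduce (C D : ℤ[X]) (hC : C ≠ 0) (hD : D ≠ 0) (h : ∀ t : ℝ, ‖ev1 C t‖ = ‖ev1 D t‖) :
    ∃ A B Q : ℤ[X], Pair1 A B ∧ Q ≠ 0 ∧ C = Q * A ∧ D = Q * B := by
  obtain ⟨A, B, Q, hAB, hA, hB⟩ := UniqueFactorizationMonoid.exists_reduced_factors C hC D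
  have hQ : Q ≠ 0 := by
    rintro rfl
    exact hC (by rw [← hA, zero_mul])
  have hA0 : A ≠ 0 := by
    rintro rfl
    exact hC (by rw [← hA, mul_zero])
  have hB0 : B ≠ 0 := by
    rintro rfl
    exact hD (by rw [← hB, mul_zero])
  refine ⟨A, B, Q, ⟨hA0, hB0, hAB, ?_⟩, hQ, hA.symm, hB.symm⟩
  have hfun : (fun t : ℝ => ‖ev1 A t‖) = fun t : ℝ => ‖ev1 B t‖ := by
    rw [← Continuous.ae_eq_iff_eq (μ := (volume : Measure ℝ)) (D_continuous_ev1 A).norm
      (D_continuous_ev1 B).norm]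
    filter_upwards [D_ae_ne Q hQ] with t ht
    have h1 := h t
    rw [← hA, ← hB, I1_ev1_mul, I1_ev1_mul, norm_mul, norm_mul] at h1
    exact mul_left_cancel₀ (norm_ne_zero_iff.mpr ht) h1
  exact fun t => congrFun hfun t

theorem I2_pair_one : Pair1 (1 : ℤ[X]) 1 :=
  ⟨one_ne_zero, one_ne_zero, isRelPrime_one_left, fun _ => rfl⟩

theorem I2_hyper_le : (hyperfilter ℕ : Filter ℕ) ≤ atTop := by
  rw [← Nat.cofinite_eq_atTop]
  exact hyperfilter_le_cofinite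

theorem approx_one_var {k : ℕ} (C D : MvPolynomial (Fin k) ℤ) (h : PairK C D) (ε : ℝ) (hε : 0 < ε) :
    ∃ A B : ℤ[X], Pair1 A B ∧ |m1 A - mM C| < ε := by
  classical
  obtain ⟨hC, hD, hCD, hn⟩ := h
  set e : ℕ → Fin k → ℕ := fun (n : ℕ) (i : Fin k) => n ^ (i : ℕ) with he
  have he0 := asympIndep_pow k
  have he1 : AsympIndep (hyperfilter ℕ : Filter ℕ) e := fun s hs =>
    I2_hyper_le (he0 s hs)
  have hex : ∀ n, ∃ A B : ℤ[X], Pair1 A B ∧ (spec (e n) C ≠ 0 → spec (e n) D ≠ 0 →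
      spec (e n) D * A = spec (e n) C * B) := by
    intro n
    by_cases h1 : spec (e n) C ≠ 0 ∧ spec (e n) D ≠ 0
    · obtain ⟨A, B, Q, hAB, hQ, hA, hB⟩ := I2_reduce (spec (e n) C) (spec (e n) D) h1.1 h1.2
        (fun t => by rw [F_ev1, F_ev1]; exact hn _)
      refine ⟨A, B, hAB, fun _ _ => ?_⟩
      rw [hA, hB]
      ring
    · exact ⟨1, 1, I2_pair_one, fun h2 h3 => absurd ⟨h2, h3⟩ h1⟩
  choose A B hAB hrel using hex
  have hrel' : ∀ᶠ n in (hyperfilter ℕ : Filter ℕ), spec (e n) D * A n = spec (e n) C * B n := by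
    filter_upwards [spec_ne_zero _ e he1 C hC, spec_ne_zero _ e he1 D hD] with n h1 h2
    exact hrel n h1 h2
  obtain ⟨_, hlim⟩ := limit_thm C D hC hD hCD (hyperfilter ℕ) e he1 A B hAB hrel'
  have hev := (Metric.tendsto_nhds.mp hlim) ε hε
  obtain ⟨n, hn'⟩ := hev.exists
  exact ⟨A n, B n, hAB n, by rwa [Real.dist_eq] at hn'⟩

end

end Pool.Agent.H261R2.CM
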