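import Pool.Agent.H25.MM.H261R2.CM.K2b
import Pool.Agent.H25.MM.H261R2.CM.D
import Pool.Agent.H25.MM.H261R2.CM.F

/-!
# Task K2c: Boyd-Lawton limit theorem for `log θ(|C|, |D|)`
-/

set_option autoImplicit false

namespace Pool.Agent.H261R2.CM

open Polynomial Filter MeasureTheory Topology

noncomputable section

private lemma K2c_pt (x y δ : ℝ) (hx : 0 < x) (hxy : x ^ 2 ≤ y) (hδ : 0 < δ) :
    0 ≤ Real.log (y + δ) - Real.log y ∧
      Real.log (y + δ) - Real.log y ≤ Real.log (x ^ 2 + δ) - 2 * Real.log x := by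
  have hx2 : 0 < x ^ 2 := by positivity
  have hy : 0 < y := lt_of_lt_of_le hx2 hxy
  have h2 : 2 * Real.log x = Real.log (x ^ 2) := by
    rw [Real.log_pow]; push_cast; ring
  rw [h2, ← Real.log_div (by positivity) hy.ne', ← Real.log_div (by positivity) hx2.ne']
  constructor
  · apply Real.log_nonneg
    rw [le_div_iff₀ hy]
    linarith
  · apply Real.log_le_log (by positivity)
    rw [div_le_div_iff₀ hy hx2]
    nlinarith

private lemma K2c_gen {α : Type*} [MeasurableSpace α] (μ : Measure α) [IsFiniteMeasure μ]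
    (x y : α → ℝ) (hx0 : ∀ t, 0 ≤ x t) (hxm : Measurable x) (hym : Measurable y)
    (hxy : ∀ t, x t ^ 2 ≤ y t) (K : ℝ) (hK : ∀ t, y t ≤ K) (hne : ∀ᵐ t ∂μ, x t ≠ 0)
    (hint : Integrable (fun t => Real.log (x t)) μ) (δ : ℝ) (hδ : 0 < δ) :
    0 ≤ ∫ t, Real.log (y t + δ) ∂μ - ∫ t, Real.log (y t) ∂μ ∧
      ∫ t, Real.log (y t + δ) ∂μ - ∫ t, Real.log (y t) ∂μ ≤
        ∫ t, (Real.log (x t ^ 2 + δ) - 2 * Real.log (x t)) ∂μ := by
  have hy0 : ∀ t, 0 ≤ y t := fun t => (sq_nonneg _).trans (hxy t)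
  have hb : ∀ z : ℝ, 0 ≤ z → z ≤ K → |Real.log (z + δ)| ≤ |Real.log δ| + |Real.log (K + δ)| := by
    intro z hz hzK
    rw [abs_le]
    have h1 : Real.log δ ≤ Real.log (z + δ) := Real.log_le_log hδ (by linarith)
    have h2 : Real.log (z + δ) ≤ Real.log (K + δ) := Real.log_le_log (by positivity) (by linarith)
    constructor
    · linarith [neg_abs_le (Real.log δ), abs_nonneg (Real.log (K + δ))]
    · linarith [le_abs_self (Real.log (K + δ)), abs_nonneg (Real.log δ)]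
  have iyd : Integrable (fun t => Real.log (y t + δ)) μ := by
    refine Integrable.of_bound (Real.measurable_log.comp (hym.add_const δ)).aestronglyMeasurable
      (|Real.log δ| + |Real.log (K + δ)|) (Eventually.of_forall fun t => ?_)
    exact hb _ (hy0 t) (hK t)
  have ixd : Integrable (fun t => Real.log (x t ^ 2 + δ)) μ := by
    refine Integrable.of_bound
      (Real.measurable_log.comp ((hxm.pow_const 2).add_const δ)).aestronglyMeasurable
      (|Real.log δ| + |Real.log (K + δ)|) (Eventually.of_forall fun t => ?_)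
    exact hb _ (sq_nonneg _) ((hxy t).trans (hK t))
  have iy : Integrable (fun t => Real.log (y t)) μ := by
    refine Integrable.mono' (iyd.abs.add (ixd.sub (hint.const_mul 2)).abs)
      (Real.measurable_log.comp hym).aestronglyMeasurable ?_
    filter_upwards [hne] with t ht
    have h := K2c_pt (x t) (y t) δ (lt_of_le_of_ne (hx0 t) (Ne.symm ht)) (hxy t) hδ
    simp only [Pi.add_apply, Pi.sub_apply]
    rw [Real.norm_eq_abs]
    have e : Real.log (y t) = Real.log (y t + δ) - (Real.log (y t + δ) - Real.log (y t)) := by ring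
    have h3 : |Real.log (y t + δ) - Real.log (y t)| ≤
        |Real.log (x t ^ 2 + δ) - 2 * Real.log (x t)| := by
      rw [abs_of_nonneg h.1]
      exact h.2.trans (le_abs_self _)
    calc |Real.log (y t)| = |Real.log (y t + δ) - (Real.log (y t + δ) - Real.log (y t))| := by
          rw [← e]
      _ ≤ |Real.log (y t + δ)| + |Real.log (y t + δ) - Real.log (y t)| := abs_sub _ _
      _ ≤ _ := by linarith
  rw [← integral_sub iyd iy]
  constructor
  · apply integral_nonneg_of_ae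
    filter_upwards [hne] with t ht
    exact (K2c_pt (x t) (y t) δ (lt_of_le_of_ne (hx0 t) (Ne.symm ht)) (hxy t) hδ).1
  · apply integral_mono_ae (iyd.sub iy) (ixd.sub (hint.const_mul 2))
    filter_upwards [hne] with t ht
    exact (K2c_pt (x t) (y t) δ (lt_of_le_of_ne (hx0 t) (Ne.symm ht)) (hxy t) hδ).2

private lemma K2c_inj {k : ℕ} (𝓕 : Filter ℕ) (e : ℕ → Fin k → ℕ)
    (he : AsympIndep 𝓕 e) (C : MvPolynomial (Fin k) ℤ) :
    ∀ᶠ n in 𝓕, Set.InjOn (fun s : Fin k →₀ ℕ => ∑ i, s i * e n i)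
      (C.support : Set (Fin k →₀ ℕ)) := by
  have h1 : ∀ᶠ n in 𝓕, ∀ s ∈ C.support, ∀ s' ∈ C.support, s ≠ s' →
      ∑ i, s i * e n i ≠ ∑ i, s' i * e n i := by
    rw [eventually_all_finset]
    intro s _
    rw [eventually_all_finset]
    intro s0 _
    by_cases hs : s = s0
    · exact Eventually.of_forall fun n h => absurd hs h
    · have hne : (fun i => (s i : ℤ) - (s0 i : ℤ)) ≠ 0 := by
        intro h
        apply hs
        ext i
        have := congrFun h i
        simp only [Pi.zero_apply] at this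
        omega
      filter_upwards [he _ hne] with n hn _ heq
      apply hn
      have h2 : ((∑ i, s i * e n i : ℕ) : ℤ) = ((∑ i, s0 i * e n i : ℕ) : ℤ) := by rw [heq]
      push_cast at h2
      simp only [sub_mul, Finset.sum_sub_distrib]
      linarith
  filter_upwards [h1] with n hn
  intro s hs s' hs' heq
  by_contra hne
  exact hn s hs s' hs' hne heq

theorem lim_theta {k : ℕ} (𝓕 : Filter ℕ) (e : ℕ → Fin k → ℕ) (he : AsympIndep 𝓕 e)
    (θ : ℝ → ℝ → ℝ) (hθ : Continuous fun q : ℝ × ℝ => θ q.1 q.2) (hge : ∀ x y, x ^ 2 ≤ θ x y)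
    (C D : MvPolynomial (Fin k) ℤ) (hC : C ≠ 0) :
    Tendsto (fun n => ∫ t in (0:ℝ)..1,
        Real.log (θ ‖ev1 (spec (e n) C) t‖ ‖ev1 (spec (e n) D) t‖)) 𝓕
      (𝓝 (∫ t in Set.Icc (0 : Fin k → ℝ) 1, Real.log (θ ‖tv C t‖ ‖tv D t‖))) := by
  obtain ⟨η, hη, hspec⟩ := spec_log_defect C hC
  obtain ⟨K, hK⟩ : ∃ K : ℝ, ∀ t : UnitAddTorus (Fin k), θ ‖F_G C t‖ ‖F_G D t‖ ≤ K := by
    have hc : Continuous fun t : UnitAddTorus (Fin k) => θ ‖F_G C t‖ ‖F_G D t‖ :=
      hθ.comp ((F_G C).continuous.norm.prodMk (F_G D).continuous.norm)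
    obtain ⟨K, hK⟩ := (isCompact_range hc).bddAbove
    exact ⟨K, fun t => hK ⟨t, rfl⟩⟩
  have hcont : ∀ δ : ℝ, 0 < δ → Tendsto (fun n => ∫ t in (0:ℝ)..1,
        Real.log (θ ‖ev1 (spec (e n) C) t‖ ‖ev1 (spec (e n) D) t‖ + δ)) 𝓕
      (𝓝 (∫ t in Set.Icc (0 : Fin k → ℝ) 1, Real.log (θ ‖tv C t‖ ‖tv D t‖ + δ))) := by
    intro δ hδ
    have hg : Continuous fun x : UnitAddTorus (Fin k) =>
        Real.log (θ ‖F_G C x‖ ‖F_G D x‖ + δ) := by
      apply Continuous.log
      · exact (hθ.comp ((F_G C).continuous.norm.prodMk (F_G D).continuous.norm)).add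
          continuous_const
      · intro x
        have := (sq_nonneg _).trans (hge ‖F_G C x‖ ‖F_G D x‖)
        positivity
    have h := F_equidist_real 𝓕 e he _ hg
    simp only [F_ev1, F_tv]
    exact h
  -- the bound on the cube
  have hcube : ∀ δ : ℝ, 0 < δ →
      0 ≤ (∫ t in Set.Icc (0 : Fin k → ℝ) 1, Real.log (θ ‖tv C t‖ ‖tv D t‖ + δ)) -
        ∫ t in Set.Icc (0 : Fin k → ℝ) 1, Real.log (θ ‖tv C t‖ ‖tv D t‖) ∧
      (∫ t in Set.Icc (0 : Fin k → ℝ) 1, Real.log (θ ‖tv C t‖ ‖tv D t‖ + δ)) -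
        ∫ t in Set.Icc (0 : Fin k → ℝ) 1, Real.log (θ ‖tv C t‖ ‖tv D t‖) ≤
      (∫ t in Set.Icc (0 : Fin k → ℝ) 1, Real.log (‖tv C t‖ ^ 2 + δ)) - 2 * Real.log (mM C) := by
    intro δ hδ
    have hcC := F_continuous_tv C
    have hcD := F_continuous_tv D
    have h := K2c_gen ((volume : Measure (Fin k → ℝ)).restrict (Set.Icc (0 : Fin k → ℝ) 1))
      (fun t => ‖tv C t‖) (fun t => θ ‖tv C t‖ ‖tv D t‖) (fun t => norm_nonneg _)
      hcC.norm.measurable (hθ.comp (hcC.norm.prodMk hcD.norm)).measurable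
      (fun t => hge _ _) K (fun t => by rw [F_tv, F_tv]; exact hK _)
      (by filter_upwards [F_zero_null hC] with t ht using norm_ne_zero_iff.mpr ht)
      (F_integrable hC) δ hδ
    refine ⟨h.1, h.2.trans (le_of_eq ?_)⟩
    rw [F_two_log, ← integral_sub (F_cont_f C δ hδ).integrableOn_Icc
      ((F_integrable hC).const_mul 2)]
  -- the bound in one variable
  have hone : ∀ n, Set.InjOn (fun s : Fin k →₀ ℕ => ∑ i, s i * e n i)
      (C.support : Set (Fin k →₀ ℕ)) → spec (e n) C ≠ 0 → ∀ δ : ℝ, 0 < δ →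
      0 ≤ (∫ t in (0:ℝ)..1,
        Real.log (θ ‖ev1 (spec (e n) C) t‖ ‖ev1 (spec (e n) D) t‖ + δ)) -
        ∫ t in (0:ℝ)..1, Real.log (θ ‖ev1 (spec (e n) C) t‖ ‖ev1 (spec (e n) D) t‖) ∧
      (∫ t in (0:ℝ)..1,
        Real.log (θ ‖ev1 (spec (e n) C) t‖ ‖ev1 (spec (e n) D) t‖ + δ)) -
        ∫ t in (0:ℝ)..1, Real.log (θ ‖ev1 (spec (e n) C) t‖ ‖ev1 (spec (e n) D) t‖) ≤ η δ := by
    intro n hinj hne δ hδ
    have hcC := D_continuous_ev1 (spec (e n) C)
    have hcD := D_continuous_ev1 (spec (e n) D)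
    have hi := (D_intervalIntegrable_log (spec (e n) C))
    rw [intervalIntegrable_iff_integrableOn_Ioc_of_le zero_le_one] at hi
    have h := K2c_gen ((volume : Measure ℝ).restrict (Set.Ioc (0 : ℝ) 1))
      (fun t => ‖ev1 (spec (e n) C) t‖)
      (fun t => θ ‖ev1 (spec (e n) C) t‖ ‖ev1 (spec (e n) D) t‖) (fun t => norm_nonneg _)
      hcC.norm.measurable (hθ.comp (hcC.norm.prodMk hcD.norm)).measurable
      (fun t => hge _ _) K (fun t => by simp only [F_ev1, F_tv]; exact hK _)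
      (by
        filter_upwards [ae_restrict_of_ae (D_ae_ne (spec (e n) C) hne)] with t ht
          using norm_ne_zero_iff.mpr ht)
      hi δ hδ
    simp only [← intervalIntegral.integral_of_le zero_le_one] at h
    exact ⟨h.1, h.2.trans (hspec (e n) hinj δ hδ).2⟩
  rw [Metric.tendsto_nhds]
  intro ε hε
  -- choose δ
  obtain ⟨δ₀, hδ₀, hδ₀'⟩ := mM_upper C hC (2 * Real.log (mM C) + ε / 3) (by linarith)
  have h1 : ∀ᶠ δ in 𝓝[>] (0:ℝ), η δ < ε / 3 := by
    have := (Metric.tendsto_nhds.mp hη) (ε / 3) (by positivity)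
    filter_upwards [this] with δ hδ
    rw [Real.dist_eq, sub_zero] at hδ
    exact lt_of_abs_lt hδ
  have h2 : ∀ᶠ δ in 𝓝[>] (0:ℝ), 0 < δ ∧ δ ≤ δ₀ := by
    filter_upwards [Ioc_mem_nhdsGT hδ₀] with δ hδ
    exact hδ
  obtain ⟨δ, hδ1, hδ, hδ2⟩ := (h1.and h2).exists
  have hz : (∫ t in Set.Icc (0 : Fin k → ℝ) 1, Real.log (‖tv C t‖ ^ 2 + δ)) <
      2 * Real.log (mM C) + ε / 3 := by
    refine lt_of_le_of_lt ?_ hδ₀'
    apply integral_mono (F_cont_f C δ hδ).integrableOn_Icc (F_cont_f C δ₀ hδ₀).integrableOn_Icc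
    intro t
    apply Real.log_le_log (by positivity)
    linarith
  obtain ⟨c1, c2⟩ := hcube δ hδ
  have h3 := (Metric.tendsto_nhds.mp (hcont δ hδ)) (ε / 3) (by positivity)
  filter_upwards [h3, K2c_inj 𝓕 e he C, spec_ne_zero 𝓕 e he C hC] with n hn hinj hne
  obtain ⟨o1, o2⟩ := hone n hinj hne δ hδ
  rw [Real.dist_eq, abs_lt] at hn ⊢
  constructor <;> linarith [hn.1, hn.2]

end

end Pool.Agent.H261R2.CM
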