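import Pool.Agent.H25.MM.H261R2.CM.K4
import Pool.Agent.H25.MM.H261R2.CM.I3

set_option autoImplicit false

namespace Pool.Agent.H261R2.CM

open Polynomial Filter MeasureTheory Matrix Topology

noncomputable section

/-- Convergence of all the invariants in the limit theorem. -/
theorem limit_all {k : ℕ} (C D : MvPolynomial (Fin k) ℤ) (hC : C ≠ 0) (hD : D ≠ 0)
    (hCD : IsRelPrime C D) (𝒰 : Ultrafilter ℕ) (e : ℕ → Fin k → ℕ)
    (he : AsympIndep (𝒰 : Filter ℕ) e) (A B : ℕ → ℤ[X]) (hA : ∀ n, A n ≠ 0) (hB : ∀ n, B n ≠ 0)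
    (hAB : ∀ n, IsRelPrime (A n) (B n))
    (hrel : ∀ᶠ n in (𝒰 : Filter ℕ), spec (e n) D * A n = spec (e n) C * B n) :
    Tendsto (fun n => m1 (A n)) (𝒰 : Filter ℕ) (𝓝 (mM C)) ∧
      Tendsto (fun n => mx1 (A n) (B n)) (𝒰 : Filter ℕ) (𝓝 (mx C D)) := by
  obtain ⟨Q, hQ, hlim⟩ := limit_general C D hC hD hCD 𝒰 e he A B hA hB hAB hrel
  constructor
  · have h1 := m1_lim (𝒰 : Filter ℕ) e he C hC
    have h2 : Tendsto (fun n => Real.exp (-Real.log (m1 (Q n)))) (𝒰 : Filter ℕ) (𝓝 1) := by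
      have h3 := (Real.continuous_exp.tendsto _).comp hlim.neg
      rw [neg_zero, Real.exp_zero] at h3
      exact h3
    have h3 := h1.mul h2
    rw [mul_one] at h3
    refine h3.congr' ?_
    filter_upwards [hQ] with n hn
    have h4 : 0 < m1 (Q n) := lt_of_lt_of_le one_pos (I1_one_le_m1 hn.1)
    rw [Real.exp_neg, Real.exp_log h4, hn.2.1, I1_m1_mul]
    field_simp
  · have h1 := (mx1_lim (𝒰 : Filter ℕ) e he C D hC).sub hlim
    rw [sub_zero] at h1
    refine h1.congr' ?_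
    filter_upwards [hQ] with n hn
    have h2 := mx1_mul (Q n) (A n) (B n) hn.1 (hA n)
    rw [← hn.2.1, ← hn.2.2] at h2
    linarith

/-- Approximation of a pair in several variables by pairs in one variable. -/
theorem approx_pair {k : ℕ} (C D : MvPolynomial (Fin k) ℤ) (hC : C ≠ 0) (hD : D ≠ 0)
    (hCD : IsRelPrime C D) (ε : ℝ) (hε : 0 < ε) :
    ∃ A B : ℤ[X], A ≠ 0 ∧ B ≠ 0 ∧ IsRelPrime A B ∧ |m1 A - mM C| < ε ∧
      |mx1 A B - mx C D| < ε := by
  classical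
  set e : ℕ → Fin k → ℕ := fun (n : ℕ) (i : Fin k) => n ^ (i : ℕ) with he
  have he0 := asympIndep_pow k
  have he1 : AsympIndep (hyperfilter ℕ : Filter ℕ) e := fun s hs =>
    I2_hyper_le (he0 s hs)
  have hex : ∀ n, ∃ A B : ℤ[X], A ≠ 0 ∧ B ≠ 0 ∧ IsRelPrime A B ∧
      (spec (e n) C ≠ 0 → spec (e n) D ≠ 0 → spec (e n) D * A = spec (e n) C * B) := by
    intro n
    by_cases h1 : spec (e n) C ≠ 0 ∧ spec (e n) D ≠ 0
    · obtain ⟨A, B, Q, hAB, hA, hB⟩ := UniqueFactorizationMonoid.exists_reduced_factors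
        (spec (e n) C) h1.1 (spec (e n) D)
      refine ⟨A, B, ?_, ?_, hAB, fun _ _ => ?_⟩
      · rintro rfl
        exact h1.1 (by rw [← hA, mul_zero])
      · rintro rfl
        exact h1.2 (by rw [← hB, mul_zero])
      · rw [← hA, ← hB]
        ring
    · exact ⟨1, 1, one_ne_zero, one_ne_zero, isRelPrime_one_left, fun h2 h3 => absurd ⟨h2, h3⟩ h1⟩
  choose A B hA hB hAB hrel using hex
  have hrel' : ∀ᶠ n in (hyperfilter ℕ : Filter ℕ), spec (e n) D * A n = spec (e n) C * B n := by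
    filter_upwards [spec_ne_zero _ e he1 C hC, spec_ne_zero _ e he1 D hD] with n h1 h2
    exact hrel n h1 h2
  obtain ⟨hl1, hl2⟩ := limit_all C D hC hD hCD (hyperfilter ℕ) e he1 A B hA hB hAB hrel'
  obtain ⟨n, hn1, hn2⟩ := (((Metric.tendsto_nhds.mp hl1) ε hε).and
    ((Metric.tendsto_nhds.mp hl2) ε hε)).exists
  rw [Real.dist_eq] at hn1 hn2
  exact ⟨A n, B n, hA n, hB n, hAB n, hn1, hn2⟩

theorem mass_nonneg (P : ℂ[X]) : 0 ≤ mass P := Finset.sum_nonneg fun _ _ => by positivity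

theorem mass_C_mul (a : ℂ) (ha : a ≠ 0) (P : ℂ[X]) :
    mass (Polynomial.C a * P) = ‖a‖ ^ 2 * mass P := by
  unfold mass
  have h1 : (Polynomial.C a * P).support = P.support := by
    ext j
    simp [Polynomial.mem_support_iff, ha]
  rw [h1, Finset.mul_sum]
  refine Finset.sum_congr rfl fun j _ => ?_
  rw [Polynomial.coeff_C_mul, norm_mul, mul_pow]

theorem N21_le (A B : ℤ[X]) (hA : A ≠ 0) : N21 A B ≤ Real.log 2 + 2 * mx1 A B := by
  have h1 : Real.log 2 + 2 * mx1 A B =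
      ∫ t in (0:ℝ)..1, (Real.log 2 + Real.log (thM ‖ev1 A t‖ ‖ev1 B t‖)) := by
    rw [intervalIntegral.integral_add intervalIntegrable_const
      (K4_int1 thM thM_cont thM_ge A B hA), ← mx1_eq]
    simp
  rw [h1]
  unfold N21
  refine intervalIntegral.integral_mono_ae zero_le_one (K4_int1 thS thS_cont thS_ge A B hA)
    (intervalIntegrable_const.add (K4_int1 thM thM_cont thM_ge A B hA)) ?_
  filter_upwards [D_ae_ne A hA] with t ht
  have h2 : 0 < ‖ev1 A t‖ := norm_pos_iff.mpr ht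
  have h3 : 0 < thM ‖ev1 A t‖ ‖ev1 B t‖ := lt_of_lt_of_le (by positivity) (thM_ge _ _)
  rw [← Real.log_mul two_ne_zero h3.ne']
  refine Real.log_le_log (by positivity) ?_
  unfold thM
  have h4 := le_max_left (‖ev1 A t‖ ^ 2) (‖ev1 B t‖ ^ 2)
  have h5 := le_max_right (‖ev1 A t‖ ^ 2) (‖ev1 B t‖ ^ 2)
  linarith

/-- Compactness for coprime pairs with `∫ log max(|A|, |B|)` bounded. -/
theorem pairs_compact_general (A B : ℕ → ℤ[X]) (hA : ∀ n, A n ≠ 0) (hB : ∀ n, B n ≠ 0)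
    (hAB : ∀ n, IsRelPrime (A n) (B n)) (K : ℝ) (hK : ∀ n, mx1 (A n) (B n) ≤ K) :
    ∃ (k : ℕ) (e : ℕ → Fin k → ℕ) (C D : MvPolynomial (Fin k) ℤ), 1 ≤ k ∧ C ≠ 0 ∧ D ≠ 0 ∧
      IsRelPrime C D ∧ AsympIndep (hyperfilter ℕ : Filter ℕ) e ∧
      (∀ᶠ n in (hyperfilter ℕ : Filter ℕ), spec (e n) D * A n = spec (e n) C * B n) ∧
      Tendsto (fun n => m1 (A n)) (hyperfilter ℕ : Filter ℕ) (𝓝 (mM C)) ∧
      Tendsto (fun n => mx1 (A n) (B n)) (hyperfilter ℕ : Filter ℕ) (𝓝 (mx C D)) := by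
  set κ : ℝ := Real.log 2 + 2 * K + 1 with hκ
  have hN : ∀ n, N21 (A n) (B n) < κ := fun n => by
    have h1 := N21_le (A n) (B n) (hA n)
    have h2 := hK n
    rw [hκ]
    linarith
  choose p hp1 hp2 using fun n => outer_approx_pair (A n) (B n) (hA n) κ (hN n)
  set a : ℂ := ((1 / 2 : ℝ) : ℂ) with ha
  have ha0 : a ≠ 0 := by
    rw [ha]
    exact_mod_cast (by norm_num : (1 / 2 : ℝ) ≠ 0)
  have hna : ‖a‖ = 1 / 2 := by
    rw [ha, Complex.norm_real]
    norm_num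
  have hl : ∀ n (P : ℤ[X]), mass (p n * toC P) ≤ 2 → l2le ((Polynomial.C a * p n) * toC P) := by
    intro n P h
    change mass ((Polynomial.C a * p n) * toC P) ≤ 1
    rw [mul_assoc, mass_C_mul a ha0, hna]
    linarith
  obtain ⟨F, x, hx, hrel⟩ := relation_exists A B (fun n => Polynomial.C a * p n)
    (1 / 2 * Real.exp ((Real.log 2 - κ) / 2)) (by positivity)
    (fun n => by
      rw [Polynomial.coeff_C_mul, norm_mul, hna]
      exact mul_le_mul_of_nonneg_left (hp2 n) (by norm_num))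
    (fun n => hl n (A n) (by linarith [hp1 n, mass_nonneg (p n * toC (B n))]))
    (fun n => hl n (B n) (by linarith [hp1 n, mass_nonneg (p n * toC (A n))]))
  obtain ⟨k, e, C, D, hk, hC, hD, hCD, he, hrel'⟩ := structure_of_relation A B hA hB F x hx hrel
  obtain ⟨h1, h2⟩ := limit_all C D hC hD hCD (hyperfilter ℕ) e he A B hA hB hAB hrel'
  exact ⟨k, e, C, D, hk, hC, hD, hCD, he, hrel', h1, h2⟩

/-- The set of Mahler measures of the polynomials having a coprime companion of bounded size. -/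
def LL (K : ℝ) : Set ℝ :=
  {x : ℝ | ∃ k : ℕ, 1 ≤ k ∧ ∃ F G : MvPolynomial (Fin k) ℤ, F ≠ 0 ∧ G ≠ 0 ∧ IsRelPrime F G ∧
    mx F G ≤ K ∧ x = mM F}

theorem closed_LL (K : ℝ) : IsClosed (LL K) := by
  refine IsSeqClosed.isClosed ?_
  intro x μ hx hlim
  choose k hk F G hF hG hFG hK hxF using hx
  have happ : ∀ n, ∃ A B : ℤ[X], A ≠ 0 ∧ B ≠ 0 ∧ IsRelPrime A B ∧
      |m1 A - mM (F n)| < 1 / ((n : ℝ) + 1) ∧ |mx1 A B - mx (F n) (G n)| < 1 / ((n : ℝ) + 1) :=
    fun n => approx_pair (F n) (G n) (hF n) (hG n) (hFG n) _ (by positivity)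
  choose A B hA hB hAB h1 h2 using happ
  have hlim1 : Tendsto (fun n => m1 (A n)) atTop (𝓝 μ) := by
    have h3 : Tendsto (fun n => m1 (A n) - mM (F n)) atTop (𝓝 0) := by
      refine squeeze_zero_norm (fun n => ?_) tendsto_one_div_add_atTop_nhds_zero_nat
      rw [Real.norm_eq_abs]
      exact (h1 n).le
    have h4 : Tendsto (fun n => mM (F n)) atTop (𝓝 μ) := hlim.congr fun n => hxF n
    have h5 := h3.add h4
    simp only [sub_add_cancel, zero_add] at h5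
    exact h5
  have hle : ∀ n, mx1 (A n) (B n) ≤ K + 1 / ((n : ℝ) + 1) := by
    intro n
    have h3 := (abs_lt.mp (h2 n)).2
    have h4 := hK n
    linarith
  have hle1 : ∀ n, mx1 (A n) (B n) ≤ K + 1 := by
    intro n
    refine (hle n).trans ?_
    have : 1 / ((n : ℝ) + 1) ≤ 1 := by
      rw [div_le_one (by positivity)]
      have : (0 : ℝ) ≤ n := Nat.cast_nonneg n
      linarith
    linarith
  obtain ⟨k', e, C, D, hk', hC, hD, hCD, _, _, hl1, hl2⟩ := pairs_compact_general A B hA hB hAB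
    (K + 1) hle1
  refine ⟨k', hk', C, D, hC, hD, hCD, ?_, ?_⟩
  · have h5 : Tendsto (fun n : ℕ => K + 1 / ((n : ℝ) + 1)) atTop (𝓝 (K + 0)) :=
      tendsto_const_nhds.add tendsto_one_div_add_atTop_nhds_zero_nat
    rw [add_zero] at h5
    exact le_of_tendsto_of_tendsto' hl2 (h5.mono_left I2_hyper_le) hle
  · exact tendsto_nhds_unique (hlim1.mono_left I2_hyper_le) hl1

end

end Pool.Agent.H261R2.CM
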