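import Pool.Agent.H25.MM.H261R2.CM.K5
import Pool.Agent.H25.MM.H261R2.CM.K8
import Pool.Agent.H25.MM.H261R2.CM.J4

set_option autoImplicit false

namespace Pool.Agent.H261R2.CM

open Filter MeasureTheory Topology

noncomputable section

theorem LL_mono {K K' : ℝ} (h : K ≤ K') : LL K ⊆ LL K' := by
  rintro x ⟨k, hk, F, G, hF, hG, hFG, hK, hx⟩
  exact ⟨k, hk, F, G, hF, hG, hFG, hK.trans h, hx⟩

theorem iUnion_LL : (⋃ K : ℝ, LL K) =
    {x : ℝ | ∃ k : ℕ, 1 ≤ k ∧ ∃ F : MvPolynomial (Fin k) ℤ, F ≠ 0 ∧ x = mM F} := by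
  ext x
  rw [Set.mem_iUnion]
  constructor
  · rintro ⟨K, k, hk, F, G, hF, _, _, _, hx⟩
    exact ⟨k, hk, F, hF, hx⟩
  · rintro ⟨k, hk, F, hF, hx⟩
    exact ⟨mx F 1, k, hk, F, 1, hF, one_ne_zero, isRelPrime_one_right, le_rfl, hx⟩

theorem log_mM {k : ℕ} (F : MvPolynomial (Fin k) ℤ) :
    Real.log (mM F) = ∫ t in Set.Icc (0 : Fin k → ℝ) 1, Real.log ‖tv F t‖ := by
  unfold mM
  rw [Real.log_exp]

/-- nonreciprocal polynomials -/
theorem LL_nonrecip {k : ℕ} (F : MvPolynomial (Fin k) ℤ) (hF : F ≠ 0)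
    (h : ∀ Q : MvPolynomial (Fin k) ℤ, Irreducible Q → Q ∣ F →
        Q.totalDegree = 0 ∨ mM Q = 1 ∨ ¬ Associated (recip Q) Q) (K : ℝ)
    (hK : Real.log (mM F) ≤ K) : mM F ∈ LL K := by
  obtain ⟨P, h1, h2, h3⟩ := exists_coprime_recip F hF h
  obtain ⟨_, h4, _, h5⟩ := J.pair_of_relPrime h1 h2
  refine ⟨k + 1, by omega, P, recip P, h1, h4, h2, ?_, h3.symm⟩
  rw [← h3, log_mM] at hK
  unfold mx
  refine le_trans (le_of_eq ?_) hK
  refine integral_congr_ae (Eventually.of_forall fun t => ?_)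
  simp only
  rw [← h5 t, max_self]

theorem norm_tv_le {k : ℕ} (F : MvPolynomial (Fin k) ℤ) (t : Fin k → ℝ) :
    ‖tv F t‖ ≤ ((∑ s ∈ F.support, |F.coeff s| : ℤ) : ℝ) := by
  unfold tv
  rw [MvPolynomial.eval_map, MvPolynomial.eval₂_eq']
  refine (norm_sum_le _ _).trans ?_
  push_cast
  refine Finset.sum_le_sum fun s _ => ?_
  rw [norm_mul, norm_prod]
  have h1 : ∀ i : Fin k, ‖(Complex.exp (2 * (Real.pi : ℂ) * Complex.I * ((t i : ℝ) : ℂ))) ^ (s i)‖ = 1 := by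
    intro i
    rw [norm_pow]
    have h2 := D_norm_ez (t i)
    unfold ez at h2
    rw [h2, one_pow]
  simp only [h1, Finset.prod_const_one, mul_one]
  rw [eq_intCast, Complex.norm_intCast]

/-- polynomials of bounded length -/
theorem LL_length {k : ℕ} (hk : 1 ≤ k) (F : MvPolynomial (Fin k) ℤ) (hF : F ≠ 0) (K : ℝ)
    (hK : ((∑ s ∈ F.support, |F.coeff s| : ℤ) : ℝ) ≤ Real.exp K) : mM F ∈ LL K := by
  refine ⟨k, hk, F, 1, hF, one_ne_zero, isRelPrime_one_right, ?_, rfl⟩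
  obtain ⟨s0, hs0⟩ := MvPolynomial.support_nonempty.mpr hF
  have h1 : (1 : ℤ) ≤ ∑ s ∈ F.support, |F.coeff s| := by
    refine le_trans ?_ (Finset.single_le_sum (f := fun s => |F.coeff s|)
      (fun s _ => abs_nonneg _) hs0)
    exact Int.one_le_abs (MvPolynomial.mem_support_iff.mp hs0)
  have h2 : (1 : ℝ) ≤ ((∑ s ∈ F.support, |F.coeff s| : ℤ) : ℝ) := by exact_mod_cast h1
  have hb : ∀ t : Fin k → ℝ, Real.log (max ‖tv F t‖ ‖tv (1 : MvPolynomial (Fin k) ℤ) t‖) ≤ K := by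
    intro t
    have h3 : ‖tv (1 : MvPolynomial (Fin k) ℤ) t‖ = 1 := by simp [tv]
    rw [h3]
    have h4 : max ‖tv F t‖ 1 ≤ Real.exp K :=
      max_le ((norm_tv_le F t).trans hK) (h2.trans hK)
    have h5 : 0 < max ‖tv F t‖ 1 := lt_of_lt_of_le one_pos (le_max_right _ _)
    rw [Real.log_le_iff_le_exp h5]
    exact h4
  unfold mx
  have h6 : (∫ t in Set.Icc (0 : Fin k → ℝ) 1, (K : ℝ)) = K := by
    rw [setIntegral_const]
    simp [measureReal_def, Real.volume_Icc_pi_toReal]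
  calc (∫ t in Set.Icc (0 : Fin k → ℝ) 1,
        Real.log (max ‖tv F t‖ ‖tv (1 : MvPolynomial (Fin k) ℤ) t‖))
      ≤ ∫ t in Set.Icc (0 : Fin k → ℝ) 1, (K : ℝ) := by
        refine integral_mono ?_ (integrable_const _) hb
        have h7 := K4_intk thM thM_cont thM_ge F 1 hF
        have h8 : ∀ t : Fin k → ℝ, Real.log (max ‖tv F t‖ ‖tv (1 : MvPolynomial (Fin k) ℤ) t‖) =
            1 / 2 * Real.log (thM ‖tv F t‖ ‖tv (1 : MvPolynomial (Fin k) ℤ) t‖) := by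
          intro t
          rw [thM_log (norm_nonneg _) (norm_nonneg _)]
          ring
        simp only [h8]
        exact h7.const_mul (1 / 2)
    _ = K := h6

/-- polynomials of bounded degree in one of the variables, without factor free of it -/
theorem LL_width {k : ℕ} (F : MvPolynomial (Fin k) ℤ) (hF : F ≠ 0) (i : Fin k) (m : ℕ)
    (hm : F.degreeOf i ≤ m) (hX : ¬ MvPolynomial.X i ∣ F)
    (hprim : ∀ Q, Q ∣ F → Q.degreeOf i = 0 → IsUnit Q) (K : ℝ)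
    (hK : Real.log (mM F) + m * Real.log 2 ≤ K) : mM F ∈ LL K := by
  obtain ⟨F', G', h1, h2, h3, h4, h5⟩ := width_pair F hF i m hm hX hprim
  exact ⟨k + 1, by omega, F', G', h1, h2, h3, h5.trans hK, h4.symm⟩

end

end Pool.Agent.H261R2.CM
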